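import Mathlib

set_option autoImplicit false

/-! Truncated Ramanujan expansion: exact identities, helper891. -/

namespace Pool.Agent.TH891.BD

open Finset ArithmeticFunction

/-- the support of the weights -/
def DD (W Q : ℕ) : Finset ℕ := (Icc 1 Q).filter (fun d => Squarefree d ∧ Nat.Coprime W d)

lemma mem_DD {W Q d : ℕ} : d ∈ DD W Q ↔ (1 ≤ d ∧ d ≤ Q) ∧ Squarefree d ∧ Nat.Coprime W d := by
  unfold DD
  rw [mem_filter, mem_Icc]

lemma DD_dvd {W Q d q : ℕ} (hq : q ∈ DD W Q) (hd : d ∣ q) : d ∈ DD W Q := by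
  rw [mem_DD] at hq ⊢
  obtain ⟨⟨h1, h2⟩, h3, h4⟩ := hq
  have h5 := Nat.le_of_dvd (by omega) hd
  have h6 := Nat.pos_of_dvd_of_pos hd (by omega)
  exact ⟨⟨h6, by omega⟩, h3.squarefree_of_dvd hd, h4.coprime_dvd_right hd⟩

/-- `μ(r) / φ(r)` -/
noncomputable def yy (r : ℕ) : ℝ := (moebius r : ℝ) / (Nat.totient r : ℝ)

/-- the sieve weights -/
noncomputable def lam (W Q d : ℕ) : ℝ :=
  d * ∑ q ∈ (DD W Q).filter (fun q => d ∣ q), (moebius (q / d) : ℝ) * yy q

/-- `g ↦ g` on the divisors of `h` -/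
noncomputable def gI (h : ℕ) : ArithmeticFunction ℝ := ⟨fun g => if g ∣ h then (g : ℝ) else 0, by simp⟩

lemma gI_apply (h g : ℕ) : gI h g = if g ∣ h then (g : ℝ) else 0 := rfl

/-- the Ramanujan sum -/
noncomputable def cR (h : ℕ) : ArithmeticFunction ℝ := gI h * (moebius : ArithmeticFunction ℝ)

lemma gI_mult (h : ℕ) : (gI h).IsMultiplicative := by
  refine ⟨by simp [gI_apply], fun {m n} hmn => ?_⟩
  rw [gI_apply, gI_apply, gI_apply]
  by_cases h1 : m ∣ h
  · by_cases h2 : n ∣ h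
    · rw [if_pos (hmn.mul_dvd_of_dvd_of_dvd h1 h2), if_pos h1, if_pos h2]
      push_cast; ring
    · rw [if_neg (fun h3 => h2 ((dvd_mul_left n m).trans h3)), if_neg h2, mul_zero]
  · rw [if_neg (fun h3 => h1 ((dvd_mul_right m n).trans h3)), if_neg h1, zero_mul]

lemma mu_mult : (moebius : ArithmeticFunction ℝ).IsMultiplicative := isMultiplicative_moebius.intCast

lemma cR_mult (h : ℕ) : (cR h).IsMultiplicative := (gI_mult h).mul mu_mult

/-- `∑_{r ∣ g} c_r(h) = g` if `g ∣ h` and `0` otherwise -/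
lemma sum_cR (h g : ℕ) : ∑ r ∈ g.divisors, cR h r = if g ∣ h then (g : ℝ) else 0 := by
  rw [← coe_mul_zeta_apply]
  unfold cR
  rw [mul_assoc, coe_moebius_mul_coe_zeta, mul_one, gI_apply]

lemma cR_prime (h : ℕ) {p : ℕ} (hp : p.Prime) : cR h p = (if p ∣ h then (p : ℝ) else 0) - 1 := by
  have h1 := sum_cR h p
  rw [hp.sum_divisors] at h1
  have h2 : cR h 1 = 1 := (cR_mult h).1
  rw [h2] at h1
  linarith

/-- functions which are multiplicative on coprime arguments and agree at primes agree at squarefree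
numbers -/
lemma sqf_ext {F G : ℕ → ℝ} (hF1 : F 1 = 1) (hG1 : G 1 = 1)
    (hF : ∀ m n : ℕ, Nat.Coprime m n → F (m * n) = F m * F n)
    (hG : ∀ m n : ℕ, Nat.Coprime m n → G (m * n) = G m * G n)
    (hp : ∀ p : ℕ, p.Prime → F p = G p) : ∀ n : ℕ, Squarefree n → F n = G n := by
  intro n
  induction n using Nat.strong_induction_on with
  | _ n ih =>
    intro hn
    rcases Nat.lt_or_ge n 2 with h | h
    · interval_cases n
      · exact absurd hn (by simp)
      · rw [hF1, hG1]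
    · have hpp := Nat.minFac_prime (by omega : n ≠ 1)
      obtain ⟨m, hm⟩ := Nat.minFac_dvd n
      set p := n.minFac with hpdef
      have hcop : Nat.Coprime p m := by
        rw [hm] at hn
        exact Nat.coprime_of_squarefree_mul hn
      have hm0 : 0 < m := by
        rcases Nat.eq_zero_or_pos m with h0 | h0
        · rw [h0] at hm; omega
        · exact h0
      have hmn : m < n := by
        rw [hm]
        have := hpp.two_le
        nlinarith
      have hsm : Squarefree m := hn.squarefree_of_dvd ⟨p, by rw [mul_comm]; exact hm⟩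
      rw [hm, hF p m hcop, hG p m hcop, hp p hpp, ih m hmn hsm]

lemma yy_one : yy 1 = 1 := by simp [yy]

lemma yy_mul {m n : ℕ} (h : Nat.Coprime m n) : yy (m * n) = yy m * yy n := by
  unfold yy
  rw [isMultiplicative_moebius.2 h, Nat.totient_mul h]
  push_cast
  rw [div_mul_div_comm]

/-- `d ↦ d / φ(d)` on the `d` coprime to `h` -/
noncomputable def fI (h : ℕ) : ArithmeticFunction ℝ :=
  ⟨fun d => if Nat.Coprime d h then (d : ℝ) / Nat.totient d else 0, by simp⟩

lemma fI_apply (h d : ℕ) : fI h d = if Nat.Coprime d h then (d : ℝ) / Nat.totient d else 0 := rfl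

lemma fI_mult (h : ℕ) : (fI h).IsMultiplicative := by
  refine ⟨by simp [fI_apply], fun {m n} hmn => ?_⟩
  rw [fI_apply, fI_apply, fI_apply]
  by_cases h1 : Nat.Coprime m h
  · by_cases h2 : Nat.Coprime n h
    · rw [if_pos (Nat.Coprime.mul_left h1 h2), if_pos h1, if_pos h2, Nat.totient_mul hmn]
      push_cast
      rw [div_mul_div_comm]
    · rw [if_neg (fun h3 => h2 (Nat.Coprime.coprime_mul_left h3)), if_neg h2, mul_zero]
  · rw [if_neg (fun h3 => h1 (Nat.Coprime.coprime_mul_right h3)), if_neg h1, zero_mul]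

lemma fI_mu {h : ℕ} {q : ℕ} (hq : Squarefree q) :
    (fI h * (moebius : ArithmeticFunction ℝ)) q = yy q * cR h q := by
  have hm := (fI_mult h).mul mu_mult
  refine sqf_ext (F := fun q => (fI h * (moebius : ArithmeticFunction ℝ)) q) (G := fun q => yy q * cR h q)
    hm.1 (by
      rw [yy_one, (cR_mult h).1, mul_one]) (fun m n hmn => hm.2 hmn) (fun m n hmn => ?_) (fun p hp => ?_) q hq
  · rw [yy_mul hmn, (cR_mult h).2 hmn]
    ring
  · have e1 : ∑ r ∈ p.divisors, (fI h * (moebius : ArithmeticFunction ℝ)) r = fI h p := by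
      rw [← coe_mul_zeta_apply, mul_assoc, coe_moebius_mul_coe_zeta, mul_one]
    rw [hp.sum_divisors, hm.1] at e1
    have e2 : (fI h * (moebius : ArithmeticFunction ℝ)) p = fI h p - 1 := by linarith
    rw [e2, cR_prime h hp, fI_apply]
    unfold yy
    rw [moebius_apply_prime hp, Nat.totient_prime hp, Nat.cast_sub hp.one_le]
    have hp1 : (1:ℝ) < p := by exact_mod_cast hp.one_lt
    have hp0 : (p:ℝ) - 1 ≠ 0 := by linarith
    push_cast
    by_cases h1 : p ∣ h
    · have h2 : ¬ Nat.Coprime p h := fun h3 => (hp.coprime_iff_not_dvd.1 h3) h1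
      rw [if_pos h1, if_neg h2]
      field_simp
      ring
    · have h2 : Nat.Coprime p h := hp.coprime_iff_not_dvd.2 h1
      rw [if_neg h1, if_pos h2]
      field_simp
      ring

/-- `∑_{r ∣ d ∣ q} μ(q / d)` -/
lemma sum_mu_dvd {q r : ℕ} (hq : 0 < q) (_hr : 0 < r) :
    ∑ d ∈ q.divisors.filter (fun d => r ∣ d), (moebius (q / d) : ℝ) = if q = r then 1 else 0 := by
  by_cases hrq : r ∣ q
  · obtain ⟨n, rfl⟩ := hrq
    have hn : 0 < n := Nat.pos_of_mul_pos_left hq
    have hr : 0 < r := Nat.pos_of_mul_pos_right hq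
    have e1 : ∑ d ∈ (r * n).divisors.filter (fun d => r ∣ d), (moebius (r * n / d) : ℝ) =
        ∑ e ∈ n.divisors, (moebius (n / e) : ℝ) := by
      symm
      apply sum_bij (fun e _ => r * e)
      · intro e he
        rw [Nat.mem_divisors] at he
        rw [mem_filter, Nat.mem_divisors]
        exact ⟨⟨Nat.mul_dvd_mul_left r he.1, by positivity⟩, dvd_mul_right _ _⟩
      · intro e _ e' _ h
        exact Nat.eq_of_mul_eq_mul_left hr h
      · intro d hd
        rw [mem_filter, Nat.mem_divisors] at hd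
        obtain ⟨⟨hd1, _⟩, e, rfl⟩ := hd
        exact ⟨e, Nat.mem_divisors.2 ⟨Nat.dvd_of_mul_dvd_mul_left hr hd1, by omega⟩, rfl⟩
      · intro e _
        rw [Nat.mul_div_mul_left _ _ hr]
    rw [e1]
    have e2 : ∑ e ∈ n.divisors, (moebius (n / e) : ℝ) = ∑ e ∈ n.divisors, (moebius e : ℝ) :=
      Nat.sum_div_divisors n (fun e => (moebius e : ℝ))
    have e3 : ∑ e ∈ n.divisors, (moebius e : ℝ) = ((moebius : ArithmeticFunction ℝ) * (zeta : ArithmeticFunction ℝ)) n := by
      rw [coe_mul_zeta_apply]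
      rfl
    rw [e2, e3, coe_moebius_mul_coe_zeta, one_apply]
    by_cases h1 : n = 1
    · rw [if_pos h1, if_pos (by rw [h1, mul_one])]
    · rw [if_neg h1, if_neg]
      intro h2
      apply h1
      have : r * n = r * 1 := by rw [mul_one]; exact h2
      exact Nat.eq_of_mul_eq_mul_left hr this
  · have : q.divisors.filter (fun d => r ∣ d) = ∅ := by
      rw [filter_eq_empty_iff]
      intro d hd hrd
      exact hrq (hrd.trans (Nat.dvd_of_mem_divisors hd))
    rw [this, sum_empty, if_neg]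
    rintro rfl
    exact hrq dvd_rfl

/-- diagonalisation -/
lemma sum_lam_dvd {W Q r : ℕ} (hr : r ∈ DD W Q) :
    ∑ d ∈ (DD W Q).filter (fun d => r ∣ d), lam W Q d / d = yy r := by
  have hr1 : 0 < r := by have := (mem_DD.1 hr).1.1; omega
  have e1 : ∀ d ∈ (DD W Q).filter (fun d => r ∣ d), lam W Q d / d =
      ∑ q ∈ DD W Q, if d ∣ q then (moebius (q / d) : ℝ) * yy q else 0 := by
    intro d hd
    have hd1 := (mem_DD.1 (mem_filter.1 hd).1).1.1
    have hd0 : (d:ℝ) ≠ 0 := by exact_mod_cast (by omega : d ≠ 0)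
    unfold lam
    rw [mul_div_cancel_left₀ _ hd0, sum_filter]
  rw [sum_congr rfl e1, sum_comm]
  have e2 : ∀ q ∈ DD W Q, ∑ d ∈ (DD W Q).filter (fun d => r ∣ d),
      (if d ∣ q then (moebius (q / d) : ℝ) * yy q else 0) = if q = r then yy q else 0 := by
    intro q hq
    have hq1 : 0 < q := by have := (mem_DD.1 hq).1.1; omega
    rw [← sum_filter, filter_filter]
    have e3 : (DD W Q).filter (fun d => r ∣ d ∧ d ∣ q) = q.divisors.filter (fun d => r ∣ d) := by
      ext d
      rw [mem_filter, mem_filter, Nat.mem_divisors]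
      constructor
      · rintro ⟨_, h2, h3⟩; exact ⟨⟨h3, by omega⟩, h2⟩
      · rintro ⟨⟨h3, _⟩, h2⟩; exact ⟨DD_dvd hq h3, h2, h3⟩
    rw [e3, ← sum_mul, sum_mu_dvd hq1 hr1]
    split_ifs <;> simp
  rw [sum_congr rfl e2, sum_ite_eq' (DD W Q) r, if_pos hr]

/-- the correlation factor -/
noncomputable def SS (W Q h : ℕ) : ℝ := ∑ q ∈ DD W Q, yy q ^ 2 * cR h q

/-- `∑_{(d, h) = 1} λ_d / φ(d)` -/
theorem T1_eq (W Q h : ℕ) :
    ∑ d ∈ (DD W Q).filter (fun d => Nat.Coprime d h), lam W Q d / Nat.totient d = SS W Q h := by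
  have e1 : ∀ d ∈ DD W Q, (if Nat.Coprime d h then lam W Q d / Nat.totient d else 0) =
      ∑ q ∈ DD W Q, if d ∣ q then fI h d * (moebius (q / d) : ℝ) * yy q else 0 := by
    intro d hd
    rw [fI_apply]
    unfold lam
    rw [← sum_filter]
    split_ifs with h1
    · rw [mul_div_right_comm, mul_sum]
      apply sum_congr rfl
      intro q _
      ring
    · simp
  rw [sum_filter, sum_congr rfl e1, sum_comm]
  unfold SS
  apply sum_congr rfl
  intro q hq
  have hq1 : 0 < q := by have := (mem_DD.1 hq).1.1; omega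
  have hsq := (mem_DD.1 hq).2.1
  rw [← sum_filter]
  have e3 : (DD W Q).filter (fun d => d ∣ q) = q.divisors := by
    ext d
    rw [mem_filter, Nat.mem_divisors]
    constructor
    · rintro ⟨_, h2⟩; exact ⟨h2, by omega⟩
    · rintro ⟨h2, _⟩; exact ⟨DD_dvd hq h2, h2⟩
  rw [e3, ← sum_mul]
  have e4 : ∑ d ∈ q.divisors, fI h d * (moebius (q / d) : ℝ) =
      (fI h * (moebius : ArithmeticFunction ℝ)) q := by
    rw [mul_apply, Nat.sum_divisorsAntidiagonal (fun a b => fI h a * (moebius : ArithmeticFunction ℝ) b)]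
    rfl
  rw [e4, fI_mu hsq]
  ring

/-- `∑_{(d, d') ∣ h} λ_d λ_d' / [d, d']` -/
theorem T2_eq (W Q h : ℕ) :
    ∑ d ∈ DD W Q, ∑ d' ∈ DD W Q, (if Nat.gcd d d' ∣ h then lam W Q d * lam W Q d' / (Nat.lcm d d' : ℝ) else 0) =
      SS W Q h := by
  have e1 : ∀ d ∈ DD W Q, ∀ d' ∈ DD W Q,
      (if Nat.gcd d d' ∣ h then lam W Q d * lam W Q d' / (Nat.lcm d d' : ℝ) else 0) =
      ∑ r ∈ DD W Q, if r ∣ d ∧ r ∣ d' then cR h r * (lam W Q d / d) * (lam W Q d' / d') else 0 := by
    intro d hd d' hd'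
    have hd1 := (mem_DD.1 hd).1.1
    have hd'1 := (mem_DD.1 hd').1.1
    have hd0 : (d:ℝ) ≠ 0 := by exact_mod_cast (by omega : d ≠ 0)
    have hd'0 : (d':ℝ) ≠ 0 := by exact_mod_cast (by omega : d' ≠ 0)
    have hg : 0 < Nat.gcd d d' := Nat.gcd_pos_of_pos_left _ (by omega)
    have hl : 0 < Nat.lcm d d' := Nat.lcm_pos (by omega) (by omega)
    have hg0 : ((Nat.gcd d d' : ℕ) : ℝ) ≠ 0 := by exact_mod_cast hg.ne'
    have hl0 : ((Nat.lcm d d' : ℕ) : ℝ) ≠ 0 := by exact_mod_cast hl.ne'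
    have hgl : ((Nat.gcd d d' : ℕ) : ℝ) * ((Nat.lcm d d' : ℕ) : ℝ) = d * d' := by
      exact_mod_cast Nat.gcd_mul_lcm d d'
    rw [← sum_filter]
    have e2 : (DD W Q).filter (fun r => r ∣ d ∧ r ∣ d') = (Nat.gcd d d').divisors := by
      ext r
      rw [mem_filter, Nat.mem_divisors, Nat.dvd_gcd_iff]
      constructor
      · rintro ⟨_, h2⟩; exact ⟨h2, hg.ne'⟩
      · rintro ⟨h2, _⟩; exact ⟨DD_dvd hd h2.1, h2⟩
    rw [e2, ← sum_mul, ← sum_mul, sum_cR]
    split_ifs with h1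
    · rw [div_eq_iff hl0]
      have : ((Nat.gcd d d' : ℕ) : ℝ) * (lam W Q d / d) * (lam W Q d' / d') * ((Nat.lcm d d' : ℕ) : ℝ) =
          (((Nat.gcd d d' : ℕ) : ℝ) * ((Nat.lcm d d' : ℕ) : ℝ)) * (lam W Q d / d) * (lam W Q d' / d') := by ring
      rw [this, hgl]
      field_simp
    · simp
  rw [sum_congr rfl fun d hd => sum_congr rfl fun d' hd' => e1 d hd d' hd']
  rw [sum_congr rfl fun d _ => sum_comm, sum_comm]
  unfold SS
  apply sum_congr rfl
  intro r hr
  have e3 := sum_lam_dvd hr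
  rw [← e3, sq, sum_mul_sum, mul_comm, mul_sum, sum_filter]
  apply sum_congr rfl
  intro d _
  split_ifs with h1
  · rw [mul_sum, sum_filter]
    apply sum_congr rfl
    intro d' _
    by_cases h2 : r ∣ d'
    · rw [if_pos ⟨h1, h2⟩, if_pos h2]; ring
    · rw [if_neg (fun h => h2 h.2), if_neg h2]
  · apply sum_eq_zero
    intro d' _
    rw [if_neg (fun h => h1 h.1)]

/-- `T1` at `h = 0` -/
lemma SS_zero (W Q : ℕ) : SS W Q 0 = ∑ q ∈ DD W Q, 1 / (Nat.totient q : ℝ) := by
  unfold SS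
  apply sum_congr rfl
  intro q hq
  obtain ⟨⟨h1, _⟩, h2, _⟩ := mem_DD.1 hq
  have hφ : (Nat.totient q : ℝ) ≠ 0 := by exact_mod_cast (Nat.totient_pos.2 (by omega)).ne'
  have e1 : cR 0 q = Nat.totient q := by
    refine sqf_ext (F := fun q => cR 0 q) (G := fun q => (Nat.totient q : ℝ)) (cR_mult 0).1 (by simp)
      (fun m n hmn => (cR_mult 0).2 hmn) (fun m n hmn => by rw [Nat.totient_mul hmn]; push_cast; ring)
      (fun p hp => ?_) q h2
    rw [cR_prime 0 hp, if_pos (dvd_zero p), Nat.totient_prime hp, Nat.cast_sub hp.one_le]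
    simp
  have e2 : (moebius q : ℝ) ^ 2 = 1 := by
    have := moebius_sq_eq_one_of_squarefree h2
    exact_mod_cast this
  rw [e1]
  unfold yy
  rw [div_pow, e2]
  field_simp

end Pool.Agent.TH891.BD
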