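import Mathlib
import Pool.Agent.TH891.BD.B1
import Pool.Agent.W23.UBb
import Pool.Agent.H442R2.EHI.Model
import Pool.Agent.H387R2.U2

set_option autoImplicit false

/-! Truncated Ramanujan expansion: bounds, helper891. -/

namespace Pool.Agent.TH891.BD

open Finset ArithmeticFunction Pool.Agent.H387R2

/-- lower bound for the diagonal term -/
theorem SS_zero_ge {W : ℕ} (hW : 1 ≤ W) (Q : ℕ) :
    ((Nat.totient W : ℝ) / W) * Real.log ((Q : ℝ) + 1) ≤ SS W Q 0 := by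
  refine (Pool.Agent.W23.UB.phi_sum_ge (R := Q) hW).trans (le_of_eq ?_)
  rw [SS_zero]
  have e : Pool.Agent.W23.UB.SQ W Q = DD W Q := by
    unfold Pool.Agent.W23.UB.SQ DD
    apply filter_congr
    intro l _
    rw [Nat.coprime_comm]
  rw [e]
  apply sum_congr rfl
  intro q _
  rw [one_div]

lemma abs_yy_le (q : ℕ) : |yy q| ≤ 1 / (Nat.totient q : ℝ) := by
  unfold yy
  rw [abs_div, Nat.abs_cast]
  apply div_le_div_of_nonneg_right _ (Nat.cast_nonneg _)
  have := abs_moebius_le_one (n := q)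
  exact_mod_cast this

lemma abs_mu_le (q : ℕ) : |(moebius q : ℝ)| ≤ 1 := by
  have := abs_moebius_le_one (n := q)
  exact_mod_cast this

/-- the weights are bounded by a power of the logarithm -/
theorem lam_le {W Q d : ℕ} (hd : d ∈ DD W Q) : |lam W Q d| ≤ 2 * (1 + Real.log Q) ^ 2 := by
  obtain ⟨⟨hd1, hdQ⟩, _, _⟩ := mem_DD.1 hd
  have hd0 : (0:ℝ) < d := by exact_mod_cast hd1
  have hQ1 : 1 ≤ Q := hd1.trans hdQ
  have hlQ : 0 ≤ Real.log Q := Real.log_nonneg (by exact_mod_cast hQ1)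
  unfold lam
  rw [abs_mul, Nat.abs_cast]
  have h1 : |∑ q ∈ (DD W Q).filter (fun q => d ∣ q), (moebius (q / d) : ℝ) * yy q| ≤
      ∑ q ∈ (DD W Q).filter (fun q => d ∣ q), 2 * (1 + Real.log Q) / q := by
    refine (abs_sum_le_sum_abs _ _).trans (sum_le_sum fun q hq => ?_)
    obtain ⟨⟨hq1, hqQ⟩, _, _⟩ := mem_DD.1 (mem_filter.1 hq).1
    have hq0 : (0:ℝ) < q := by exact_mod_cast hq1
    have hφ : (0:ℝ) < Nat.totient q := by exact_mod_cast Nat.totient_pos.2 hq1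
    rw [abs_mul]
    calc |(moebius (q / d) : ℝ)| * |yy q| ≤ 1 * (1 / (Nat.totient q : ℝ)) :=
          mul_le_mul (abs_mu_le _) (abs_yy_le q) (abs_nonneg _) zero_le_one
      _ = 1 / (Nat.totient q : ℝ) := one_mul _
      _ ≤ 2 * (1 + Real.log Q) / q := by
          rw [div_le_div_iff₀ hφ hq0, one_mul]
          refine (Pool.Agent.H442R2.EHI.Mdl.tot_lower q hq1).trans ?_
          apply mul_le_mul_of_nonneg_right _ hφ.le
          have : Real.log q ≤ Real.log Q := Real.log_le_log hq0 (by exact_mod_cast hqQ)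
          linarith
  have h2 : ∑ q ∈ (DD W Q).filter (fun q => d ∣ q), 2 * (1 + Real.log Q) / (q : ℝ) ≤
      ∑ m ∈ Icc 1 Q, 2 * (1 + Real.log Q) / ((d : ℝ) * m) := by
    have e1 : ∑ q ∈ (DD W Q).filter (fun q => d ∣ q), 2 * (1 + Real.log Q) / (q : ℝ) =
        ∑ m ∈ ((DD W Q).filter (fun q => d ∣ q)).image (fun q => q / d), 2 * (1 + Real.log Q) / ((d : ℝ) * m) := by
      rw [sum_image]
      · apply sum_congr rfl
        intro q hq
        obtain ⟨m, rfl⟩ := (mem_filter.1 hq).2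
        rw [Nat.mul_div_cancel_left _ (by omega)]
        push_cast
        rfl
      · intro q hq q' hq' h
        obtain ⟨m, rfl⟩ := (mem_filter.1 hq).2
        obtain ⟨m', rfl⟩ := (mem_filter.1 hq').2
        beta_reduce at h
        rw [Nat.mul_div_cancel_left _ (by omega), Nat.mul_div_cancel_left _ (by omega)] at h
        rw [h]
    rw [e1]
    apply sum_le_sum_of_subset_of_nonneg
    · intro m hm
      obtain ⟨q, hq, rfl⟩ := mem_image.1 hm
      obtain ⟨⟨hq1, hqQ⟩, _, _⟩ := mem_DD.1 (mem_filter.1 hq).1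
      rw [mem_Icc]
      constructor
      · exact Nat.div_pos (Nat.le_of_dvd (by omega) (mem_filter.1 hq).2) (by omega)
      · exact (Nat.div_le_self _ _).trans hqQ
    · intro m _ _
      have : (0:ℝ) ≤ m := Nat.cast_nonneg m
      positivity
  have h3 : ∑ m ∈ Icc 1 Q, 2 * (1 + Real.log Q) / ((d : ℝ) * m) =
      2 * (1 + Real.log Q) / d * ∑ m ∈ Icc 1 Q, 1 / (m : ℝ) := by
    rw [mul_sum]
    apply sum_congr rfl
    intro m hm
    have : (m:ℝ) ≠ 0 := by
      have := (mem_Icc.1 hm).1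
      exact_mod_cast (by omega : m ≠ 0)
    field_simp
  have h4 : ∑ m ∈ Icc 1 Q, 1 / (m : ℝ) ≤ 1 + Real.log Q := by
    have h5 := harmonic_le_one_add_log Q
    refine le_trans (le_of_eq ?_) h5
    rw [harmonic_eq_sum_Icc]
    push_cast
    apply sum_congr rfl
    intro m _
    rw [one_div]
  calc (d:ℝ) * |∑ q ∈ (DD W Q).filter (fun q => d ∣ q), (moebius (q / d) : ℝ) * yy q|
      ≤ d * (2 * (1 + Real.log Q) / d * (1 + Real.log Q)) := by
        apply mul_le_mul_of_nonneg_left _ hd0.le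
        refine h1.trans (h2.trans ?_)
        rw [h3]
        exact mul_le_mul_of_nonneg_left h4 (by positivity)
    _ = 2 * (1 + Real.log Q) ^ 2 := by
        field_simp

lemma sum_abs_lam_le (W Q : ℕ) : ∑ d ∈ DD W Q, |lam W Q d| ≤ Q * (2 * (1 + Real.log Q) ^ 2) := by
  calc ∑ d ∈ DD W Q, |lam W Q d| ≤ ∑ _d ∈ DD W Q, 2 * (1 + Real.log Q) ^ 2 := sum_le_sum fun d hd => lam_le hd
    _ = ((DD W Q).card : ℝ) * (2 * (1 + Real.log Q) ^ 2) := by rw [sum_const, nsmul_eq_mul]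
    _ ≤ _ := by
        apply mul_le_mul_of_nonneg_right _ (by positivity)
        have : (DD W Q).card ≤ Q := by
          unfold DD
          refine (card_filter_le _ _).trans ?_
          rw [Nat.card_Icc]; omega
        exact_mod_cast this

/-- a nonnegative function, multiplicative on coprime arguments, summed over squarefree numbers with
all prime factors in `P` -/
lemma sum_sqf_le {g : ℕ → ℝ} (hg0 : ∀ n, 0 ≤ g n) (hg1 : g 1 = 1)
    (hg : ∀ m n : ℕ, Nat.Coprime m n → g (m * n) = g m * g n) (P D : Finset ℕ)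
    (hD : ∀ d ∈ D, Squarefree d ∧ d.primeFactors ⊆ P) :
    ∑ d ∈ D, g d ≤ ∏ p ∈ P, (1 + g p) := by
  classical
  have h1 : ∀ d : ℕ, Squarefree d → g d = ∏ p ∈ d.primeFactors, g p := by
    apply sqf_ext (F := g) (G := fun d => ∏ p ∈ d.primeFactors, g p) hg1 (by simp) hg
    · intro m n hmn
      rw [Nat.Coprime.primeFactors_mul hmn, prod_union (Nat.Coprime.disjoint_primeFactors hmn)]
    · intro p hp
      rw [Nat.Prime.primeFactors hp, prod_singleton]
  rw [prod_one_add]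
  have h2 : ∑ d ∈ D, g d = ∑ s ∈ D.image (fun d => d.primeFactors), ∏ p ∈ s, g p := by
    rw [sum_image]
    · apply sum_congr rfl
      intro d hd
      exact h1 d (hD d hd).1
    · intro d hd d' hd' h
      beta_reduce at h
      rw [← Nat.prod_primeFactors_of_squarefree (hD d hd).1, ← Nat.prod_primeFactors_of_squarefree (hD d' hd').1, h]
  rw [h2]
  apply sum_le_sum_of_subset_of_nonneg
  · intro s hs
    obtain ⟨d, hd, rfl⟩ := mem_image.1 hs
    rw [mem_powerset]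
    exact (hD d hd).2
  · intro s _ _
    exact prod_nonneg fun p _ => hg0 p

lemma sum_inv_sq (y : ℕ) (hy : 2 ≤ y) (S : Finset ℕ) (hS : ∀ p ∈ S, y < p) :
    ∑ p ∈ S, 1 / ((p : ℝ) - 1) ^ 2 ≤ 1 / ((y : ℝ) - 1) := by
  have hy2 : (2:ℝ) ≤ y := by exact_mod_cast hy
  -- telescoping
  have h1 : ∀ Z : ℕ, ∑ p ∈ Ioc y (y + Z), 1 / ((p : ℝ) - 1) ^ 2 ≤ 1 / ((y : ℝ) - 1) - 1 / ((y : ℝ) + Z - 1) := by
    intro Z
    induction Z with
    | zero => simp
    | succ Z ih =>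
      rw [← add_assoc, sum_Ioc_succ_top (by omega)]
      have hz : (0:ℝ) ≤ Z := Nat.cast_nonneg Z
      have h2 : 1 / (((y + Z + 1 : ℕ) : ℝ) - 1) ^ 2 ≤ 1 / ((y : ℝ) + Z - 1) - 1 / ((y : ℝ) + (Z + 1 : ℕ) - 1) := by
        push_cast
        have a1 : (0:ℝ) < (y:ℝ) + Z - 1 := by linarith
        have a2 : (0:ℝ) < (y:ℝ) + (Z + 1) - 1 := by linarith
        have a3 : ((y:ℝ) + Z + 1 - 1) = (y:ℝ) + (Z + 1) - 1 := by ring
        rw [a3, div_sub_div _ _ a1.ne' a2.ne']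
        have a4 : (1 * ((y:ℝ) + (Z + 1) - 1) - ((y:ℝ) + Z - 1) * 1) = 1 := by ring
        rw [a4]
        apply one_div_le_one_div_of_le (by positivity)
        nlinarith
      linarith
  set Z := S.sup id with hZ
  have h3 : S ⊆ Ioc y (y + Z) := by
    intro p hp
    rw [mem_Ioc]
    refine ⟨hS p hp, ?_⟩
    have : p ≤ Z := le_sup (f := id) hp
    omega
  refine (sum_le_sum_of_subset_of_nonneg h3 fun p _ _ => by positivity).trans ((h1 Z).trans ?_)
  have hz : (0:ℝ) ≤ Z := Nat.cast_nonneg Z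
  have : 0 ≤ 1 / ((y:ℝ) + Z - 1) := by
    apply div_nonneg zero_le_one; linarith
  linarith

lemma prod_mono_sub {ι : Type*} [DecidableEq ι] {s t : Finset ι} (hst : s ⊆ t) {f : ι → ℝ}
    (hf : ∀ x ∈ t, 1 ≤ f x) : ∏ x ∈ s, f x ≤ ∏ x ∈ t, f x := by
  rw [← prod_sdiff hst]
  have h1 : 1 ≤ ∏ x ∈ t \ s, f x := by
    calc (1 : ℝ) = ∏ _x ∈ t \ s, (1 : ℝ) := by simp
      _ ≤ _ := prod_le_prod (fun _ _ => zero_le_one) fun x hx => hf x (mem_sdiff.1 hx).1
  have h2 : 0 ≤ ∏ x ∈ s, f x := prod_nonneg fun x hx => zero_le_one.trans (hf x (hst hx))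
  nlinarith

/-- the off-diagonal terms are close to `1` -/
theorem SS_near {y : ℕ} (hy : 2 ≤ y) (Q : ℕ) (hQ : 1 ≤ Q) {h : ℕ} (hh : 1 ≤ h) :
    |SS (Uni.WW y) Q h - 1| ≤ Pool.Agent.H386R2.HL.tt y h * Real.exp (1 / ((y : ℝ) - 1)) - 1 := by
  classical
  set W := Uni.WW y with hW
  set D := DD W Q with hD
  have h1D : 1 ∈ D := by
    rw [hD, mem_DD]
    exact ⟨⟨le_rfl, hQ⟩, squarefree_one, Nat.coprime_one_right W⟩
  set g : ℕ → ℝ := fun q => |yy q ^ 2 * cR h q| with hg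
  have e1 : SS W Q h - 1 = ∑ q ∈ D.erase 1, yy q ^ 2 * cR h q := by
    unfold SS
    rw [← add_sum_erase D _ h1D, yy_one, (cR_mult h).1]
    ring
  have hg1 : g 1 = 1 := by
    rw [hg]; beta_reduce; rw [yy_one, (cR_mult h).1]; norm_num
  have h2 : |SS W Q h - 1| ≤ (∑ q ∈ D, g q) - 1 := by
    rw [e1, ← add_sum_erase D g h1D, hg1]
    have := abs_sum_le_sum_abs (fun q => yy q ^ 2 * cR h q) (D.erase 1)
    linarith
  set P : Finset ℕ := D.biUnion (fun d => d.primeFactors) with hP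
  have hPp : ∀ p ∈ P, p.Prime ∧ y < p := by
    intro p hp
    rw [hP, mem_biUnion] at hp
    obtain ⟨d, hd, hpd⟩ := hp
    have hpp := Nat.prime_of_mem_primeFactors hpd
    refine ⟨hpp, ?_⟩
    by_contra hcon
    have h3 : p ∣ W := by
      rw [hW]
      unfold Uni.WW
      apply dvd_prod_of_mem
      rw [Nat.mem_primesBelow]
      exact ⟨by omega, hpp⟩
    have h4 := (mem_DD.1 hd).2.2
    have h5 := Nat.dvd_gcd h3 (Nat.dvd_of_mem_primeFactors hpd)
    rw [Nat.Coprime] at h4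
    rw [h4] at h5
    exact hpp.one_lt.ne' (Nat.dvd_one.1 h5)
  have h3 : ∑ q ∈ D, g q ≤ ∏ p ∈ P, (1 + g p) := by
    apply sum_sqf_le (g := g) (fun n => abs_nonneg _) hg1
    · intro m n hmn
      rw [hg]
      beta_reduce
      rw [yy_mul hmn, (cR_mult h).2 hmn, ← abs_mul]
      congr 1
      ring
    · intro d hd
      refine ⟨(mem_DD.1 hd).2.1, ?_⟩
      intro p hp
      rw [hP, mem_biUnion]
      exact ⟨d, hd, hp⟩
  have hgp : ∀ p ∈ P, 1 + g p ≤ (if p ∣ h then (1 - 1 / (p : ℝ))⁻¹ else 1) * (1 + 1 / ((p : ℝ) - 1) ^ 2) := by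
    intro p hp
    obtain ⟨hpp, _⟩ := hPp p hp
    have hp2 : (2:ℝ) ≤ p := by exact_mod_cast hpp.two_le
    have hp1 : (0:ℝ) < (p:ℝ) - 1 := by linarith
    have hy2 : yy p ^ 2 = 1 / ((p:ℝ) - 1) ^ 2 := by
      unfold yy
      rw [moebius_apply_prime hpp, Nat.totient_prime hpp, Nat.cast_sub hpp.one_le]
      push_cast
      rw [div_pow]
      norm_num
    rw [hg]
    beta_reduce
    rw [hy2, cR_prime h hpp]
    by_cases hd : p ∣ h
    · rw [if_pos hd, if_pos hd, abs_of_nonneg (by positivity)]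
      have e2 : (1 - 1 / (p:ℝ))⁻¹ = 1 + 1 / ((p:ℝ) - 1) := by
        have : (p:ℝ) ≠ 0 := by linarith
        have h3 : (p:ℝ) - 1 ≠ 0 := hp1.ne'
        rw [show 1 - 1 / (p:ℝ) = ((p:ℝ) - 1) / p by field_simp, inv_div]
        field_simp
        ring
      have e3 : 1 / ((p:ℝ) - 1) ^ 2 * ((p:ℝ) - 1) = 1 / ((p:ℝ) - 1) := by
        field_simp
      rw [e2, e3]
      have h4 : 0 ≤ 1 / ((p:ℝ) - 1) := by positivity
      have h5 : 0 ≤ 1 / ((p:ℝ) - 1) ^ 2 := by positivity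
      nlinarith
    · rw [if_neg hd, if_neg hd, one_mul, zero_sub, mul_neg_one, abs_neg, abs_of_nonneg (by positivity)]
  have h4 : ∏ p ∈ P, (1 + g p) ≤ (∏ p ∈ P, if p ∣ h then (1 - 1 / (p : ℝ))⁻¹ else 1) *
      ∏ p ∈ P, (1 + 1 / ((p : ℝ) - 1) ^ 2) := by
    rw [← prod_mul_distrib]
    apply prod_le_prod
    · intro p _
      have : 0 ≤ g p := abs_nonneg _
      linarith
    · exact hgp
  have h5 : (∏ p ∈ P, if p ∣ h then (1 - 1 / (p : ℝ))⁻¹ else 1) ≤ Pool.Agent.H386R2.HL.tt y h := by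
    rw [← prod_filter]
    unfold Pool.Agent.H386R2.HL.tt
    apply prod_mono_sub
    · intro p hp
      rw [mem_filter] at hp
      rw [mem_filter, Nat.mem_primeFactors]
      exact ⟨⟨(hPp p hp.1).1, hp.2, by omega⟩, (hPp p hp.1).2⟩
    · intro p hp
      exact Pool.Agent.H386R2.HL.one_le_inv (Nat.prime_of_mem_primeFactors (mem_filter.1 hp).1)
  have h6 : ∏ p ∈ P, (1 + 1 / ((p : ℝ) - 1) ^ 2) ≤ Real.exp (1 / ((y : ℝ) - 1)) := by
    calc ∏ p ∈ P, (1 + 1 / ((p : ℝ) - 1) ^ 2) ≤ ∏ p ∈ P, Real.exp (1 / ((p : ℝ) - 1) ^ 2) := by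
          apply prod_le_prod
          · intro p _; positivity
          · intro p _
            have := Real.add_one_le_exp (1 / ((p : ℝ) - 1) ^ 2)
            linarith
      _ = Real.exp (∑ p ∈ P, 1 / ((p : ℝ) - 1) ^ 2) := by rw [Real.exp_sum]
      _ ≤ _ := Real.exp_le_exp.2 (sum_inv_sq y hy P fun p hp => (hPp p hp).2)
  have h7 : ∏ p ∈ P, (1 + g p) ≤ Pool.Agent.H386R2.HL.tt y h * Real.exp (1 / ((y : ℝ) - 1)) := by
    refine h4.trans (mul_le_mul h5 h6 (prod_nonneg fun p _ => by positivity) ?_)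
    exact zero_le_one.trans (Pool.Agent.H386R2.HL.one_le_tt y h)
  linarith

end Pool.Agent.TH891.BD
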