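import Mathlib
import Pool.Agent.TH891.BD.B2
import Pool.Agent.H387R2.U6

set_option autoImplicit false

/-! Counting lemmas for the truncated Ramanujan expansion, helper891. -/

namespace Pool.Agent.TH891.BD

open Finset Pool.Agent.H387R2

/-- distance -/
def df (a a' : ℕ) : ℕ := (a - a') + (a' - a)

lemma df_self (a : ℕ) : df a a = 0 := by unfold df; omega

lemma df_pos {a a' : ℕ} (h : a ≠ a') : 1 ≤ df a a' := by unfold df; omega

lemma df_le {a a' M : ℕ} (h : a ≤ M) (h' : a' ≤ M) : df a a' ≤ M := by unfold df; omega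

lemma dvd_df {g a a' n : ℕ} (h : g ∣ n + a) (h' : g ∣ n + a') : g ∣ df a a' := by
  rcases le_total a a' with h1 | h1
  · have e : df a a' = (n + a') - (n + a) := by unfold df; omega
    rw [e]; exact Nat.dvd_sub h' h
  · have e : df a a' = (n + a) - (n + a') := by unfold df; omega
    rw [e]; exact Nat.dvd_sub h h'

lemma modEq_of_dvd_df {g a a' : ℕ} (h : g ∣ df a a') : a ≡ a' [MOD g] := by
  rcases le_total a a' with h1 | h1
  · have e : df a a' = a' - a := by unfold df; omega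
    rw [e] at h
    exact (Nat.modEq_iff_dvd' h1).2 h
  · have e : df a a' = a - a' := by unfold df; omega
    rw [e] at h
    exact ((Nat.modEq_iff_dvd' h1).2 h).symm

/-- the integers of a class -/
def Sb (k N' W b : ℕ) : Finset ℕ := (Ioc (k + 1) N').filter (fun n => n ≡ b [MOD W])

lemma add_pred_mul {d a : ℕ} (hd : 0 < d) : (d - 1) * a + a = d * a := by
  obtain ⟨e, rfl⟩ : ∃ e, d = e + 1 := ⟨d - 1, by omega⟩
  rw [Nat.add_sub_cancel]
  ring

lemma cls_iff {W d b a a' r n : ℕ} (hWd : Nat.Coprime W d) (hd : 0 < d)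
    (h1 : r ≡ b + a [MOD W]) (h2 : r ≡ a + (d - 1) * a' [MOD d]) :
    n + a ≡ r [MOD W * d] ↔ n ≡ b [MOD W] ∧ d ∣ n + a' := by
  rw [← Nat.modEq_and_modEq_iff_modEq_mul hWd]
  have key : n + a ≡ r [MOD d] ↔ d ∣ n + a' := by
    constructor
    · intro h
      have h3 : n + a ≡ (d - 1) * a' + a [MOD d] := by
        rw [add_comm ((d - 1) * a') a]; exact h.trans h2
      have h4 : n ≡ (d - 1) * a' [MOD d] := Nat.ModEq.add_right_cancel' a h3
      have h5 : n + a' ≡ d * a' [MOD d] := by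
        rw [← add_pred_mul hd]
        exact Nat.ModEq.add_right a' h4
      exact (Nat.modEq_zero_iff_dvd.1 (h5.trans (Nat.modEq_zero_iff_dvd.2 (dvd_mul_right d a'))))
    · intro h
      have h5 : n + a' ≡ (d - 1) * a' + a' [MOD d] := by
        rw [add_pred_mul hd]
        exact (Nat.modEq_zero_iff_dvd.2 h).trans (Nat.modEq_zero_iff_dvd.2 (dvd_mul_right d a')).symm
      have h4 : n ≡ (d - 1) * a' [MOD d] := Nat.ModEq.add_right_cancel' a' h5
      have h3 : n + a ≡ (d - 1) * a' + a [MOD d] := Nat.ModEq.add_right a h4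
      rw [add_comm ((d - 1) * a') a] at h3
      exact h3.trans h2.symm
  constructor
  · rintro ⟨x, y⟩
    exact ⟨Nat.ModEq.add_right_cancel' a (x.trans h1), key.1 y⟩
  · rintro ⟨x, y⟩
    exact ⟨(Nat.ModEq.add_right a x).trans h1.symm, key.2 y⟩

lemma exists_res {W d b a a' : ℕ} (hWd : Nat.Coprime W d) (hW : 0 < W) (hd : 0 < d)
    (hba : Nat.Coprime W (b + a)) (hg : Nat.Coprime d (df a a')) :
    ∃ r, (r < W * d ∧ r.Coprime (W * d)) ∧
      ∀ n, n + a ≡ r [MOD W * d] ↔ (n ≡ b [MOD W] ∧ d ∣ n + a') := by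
  obtain ⟨r0, h1, h2⟩ := Nat.chineseRemainder hWd (b + a) (a + (d - 1) * a')
  have hWd0 : 0 < W * d := Nat.mul_pos hW hd
  have e1 : r0 % (W * d) ≡ r0 [MOD W * d] := Nat.mod_modEq _ _
  have h3 : r0 % (W * d) ≡ b + a [MOD W] := (e1.of_dvd (dvd_mul_right W d)).trans h1
  have h4 : r0 % (W * d) ≡ a + (d - 1) * a' [MOD d] := (e1.of_dvd (dvd_mul_left d W)).trans h2
  refine ⟨r0 % (W * d), ⟨Nat.mod_lt _ hWd0, ?_⟩, fun n => cls_iff hWd hd h3 h4⟩
  apply Nat.Coprime.mul_right
  · have := h3.gcd_eq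
    rw [Nat.Coprime, this, Nat.gcd_comm]
    exact hba
  · by_contra hcon
    obtain ⟨p, hp, hp1, hp2⟩ := Nat.Prime.not_coprime_iff_dvd.1 hcon
    have h5 : p ∣ a + (d - 1) * a' := (h4.of_dvd hp2).dvd_iff dvd_rfl |>.1 hp1
    have h6 : p ∣ df a a' := by
      have h7 : p ∣ (d - 1) * a' + a := by rw [add_comm]; exact h5
      have h8 : p ∣ (d - 1) * a' + a' := by
        rw [add_pred_mul hd]; exact hp2.trans (dvd_mul_right d a')
      exact dvd_df h7 h8
    have h7 := Nat.dvd_gcd hp2 h6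
    rw [Nat.Coprime] at hg
    rw [hg] at h7
    exact hp.one_lt.ne' (Nat.dvd_one.1 h7)

lemma count_prime (k N' m r a : ℕ) :
    |(((Ioc (k + 1) N').filter (fun n => (n + a).Prime ∧ n + a ≡ r [MOD m])).card : ℝ) -
      H343E.piAP N' m r| ≤ a + k + 1 := by
  classical
  have h1 : (((Ioc (k + 1) N').filter (fun n => (n + a).Prime ∧ n + a ≡ r [MOD m])).card) ≤
      ((Icc 1 N').filter (fun p => p.Prime ∧ p ≡ r [MOD m])).card + a := by
    have hsub : ((Ioc (k + 1) N').filter (fun n => (n + a).Prime ∧ n + a ≡ r [MOD m])).image (· + a) ⊆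
        (Icc 1 N').filter (fun p => p.Prime ∧ p ≡ r [MOD m]) ∪ Ioc N' (N' + a) := by
      intro p hp
      obtain ⟨n, hn, rfl⟩ := mem_image.1 hp
      rw [mem_filter, mem_Ioc] at hn
      rw [mem_union, mem_filter, mem_Icc, mem_Ioc]
      rcases le_or_gt (n + a) N' with h | h
      · left; exact ⟨⟨by omega, h⟩, hn.2⟩
      · right; exact ⟨h, by omega⟩
    have hinj : (((Ioc (k + 1) N').filter (fun n => (n + a).Prime ∧ n + a ≡ r [MOD m])).image (· + a)).card =
        (((Ioc (k + 1) N').filter (fun n => (n + a).Prime ∧ n + a ≡ r [MOD m])).card) :=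
      card_image_of_injective _ (add_left_injective a)
    rw [← hinj]
    refine (card_le_card hsub).trans ((card_union_le _ _).trans ?_)
    rw [Nat.card_Ioc]
    omega
  have h2 : ((Icc 1 N').filter (fun p => p.Prime ∧ p ≡ r [MOD m])).card ≤
      (((Ioc (k + 1) N').filter (fun n => (n + a).Prime ∧ n + a ≡ r [MOD m])).card) + (a + k + 1) := by
    have hsub : (Icc 1 N').filter (fun p => p.Prime ∧ p ≡ r [MOD m]) ⊆
        ((Ioc (k + 1) N').filter (fun n => (n + a).Prime ∧ n + a ≡ r [MOD m])).image (· + a) ∪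
          Icc 1 (a + k + 1) := by
      intro p hp
      rw [mem_filter, mem_Icc] at hp
      obtain ⟨⟨hp1, hp2⟩, hp3, hp4⟩ := hp
      rw [mem_union]
      rcases le_or_gt p (a + k + 1) with h | h
      · right; exact mem_Icc.2 ⟨hp1, h⟩
      · left
        refine mem_image.2 ⟨p - a, ?_, by omega⟩
        rw [mem_filter, mem_Ioc]
        have e : p - a + a = p := by omega
        rw [e]
        exact ⟨⟨by omega, by omega⟩, hp3, hp4⟩
    refine (card_le_card hsub).trans ((card_union_le _ _).trans ?_)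
    refine Nat.add_le_add card_image_le ?_
    rw [Nat.card_Icc]; omega
  have h1' : ((((Ioc (k + 1) N').filter (fun n => (n + a).Prime ∧ n + a ≡ r [MOD m])).card : ℕ) : ℝ) ≤
      H343E.piAP N' m r + a := by
    unfold H343E.piAP
    exact_mod_cast h1
  have h2' : H343E.piAP N' m r ≤
      ((((Ioc (k + 1) N').filter (fun n => (n + a).Prime ∧ n + a ≡ r [MOD m])).card : ℕ) : ℝ) + (a + k + 1) := by
    unfold H343E.piAP
    exact_mod_cast h2
  have hk : (0:ℝ) ≤ k := Nat.cast_nonneg k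
  rw [abs_le]
  constructor <;> linarith

lemma count_few (S : Finset ℕ) {d a a' : ℕ} (hg : ¬ Nat.Coprime d (df a a')) :
    (S.filter (fun n => (n + a).Prime ∧ d ∣ n + a')).card ≤ 1 := by
  rw [card_le_one]
  have key : ∀ n ∈ S.filter (fun n => (n + a).Prime ∧ d ∣ n + a'), n + a = Nat.gcd d (df a a') := by
    intro n hn
    obtain ⟨_, h1, h2⟩ := mem_filter.1 hn
    have h3 : Nat.gcd d (df a a') ∣ n + a' := (Nat.gcd_dvd_left _ _).trans h2
    have h4 : Nat.gcd d (df a a') ∣ n + a := by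
      have h5 := modEq_of_dvd_df (Nat.gcd_dvd_right d (df a a'))
      exact Nat.modEq_zero_iff_dvd.1 ((Nat.ModEq.add_left n h5).trans (Nat.modEq_zero_iff_dvd.2 h3))
    rcases (Nat.dvd_prime h1).1 h4 with h5 | h5
    · exact absurd h5 hg
    · exact h5.symm
  intro n hn n' hn'
  have := key n hn
  have := key n' hn'
  omega

lemma exists_cls {W d d' b a a' : ℕ} (hWd : Nat.Coprime W d) (hWd' : Nat.Coprime W d') (hd : 0 < d)
    (hd' : 0 < d') (hg : Nat.gcd d d' ∣ df a a') :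
    ∃ c, ∀ n, (n ≡ b [MOD W] ∧ d ∣ n + a ∧ d' ∣ n + a') ↔ n ≡ c [MOD W * Nat.lcm d d'] := by
  have h0 : (d - 1) * a ≡ (d' - 1) * a' [MOD Nat.gcd d d'] := by
    apply Nat.ModEq.add_right_cancel' (a + a')
    have e1 : (d - 1) * a + (a + a') = d * a + a' := by rw [← add_assoc, add_pred_mul hd]
    have e2 : (d' - 1) * a' + (a + a') = d' * a' + a := by
      rw [add_comm a a', ← add_assoc, add_pred_mul hd']
    rw [e1, e2]
    have h1 : d * a ≡ 0 [MOD Nat.gcd d d'] :=
      Nat.modEq_zero_iff_dvd.2 ((Nat.gcd_dvd_left d d').trans (dvd_mul_right d a))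
    have h2 : d' * a' ≡ 0 [MOD Nat.gcd d d'] :=
      Nat.modEq_zero_iff_dvd.2 ((Nat.gcd_dvd_right d d').trans (dvd_mul_right d' a'))
    have h3 := modEq_of_dvd_df hg
    exact (h1.add h3.symm).trans (h2.add (Nat.ModEq.refl a)).symm
  obtain ⟨c1, hc1, hc2⟩ := Nat.chineseRemainder' h0
  have hcop : Nat.Coprime W (Nat.lcm d d') := by
    rw [Nat.Coprime]
    have : Nat.Coprime W (d * d') := Nat.Coprime.mul_right hWd hWd'
    exact Nat.Coprime.coprime_dvd_right (Nat.lcm_dvd_mul d d') this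
  obtain ⟨c, hc3, hc4⟩ := Nat.chineseRemainder hcop b c1
  refine ⟨c, fun n => ?_⟩
  rw [← Nat.modEq_and_modEq_iff_modEq_mul hcop]
  have k1 : ∀ x e : ℕ, 0 < e → (x ≡ (e - 1) * a [MOD e] ↔ e ∣ x + a) := by
    intro x e he
    constructor
    · intro h
      have h5 : x + a ≡ e * a [MOD e] := by
        rw [← add_pred_mul he]; exact Nat.ModEq.add_right a h
      exact (Nat.modEq_zero_iff_dvd.1 (h5.trans (Nat.modEq_zero_iff_dvd.2 (dvd_mul_right e a))))
    · intro h
      apply Nat.ModEq.add_right_cancel' a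
      rw [add_pred_mul he]
      exact (Nat.modEq_zero_iff_dvd.2 h).trans (Nat.modEq_zero_iff_dvd.2 (dvd_mul_right e a)).symm
  have k2 : ∀ x e : ℕ, 0 < e → (x ≡ (e - 1) * a' [MOD e] ↔ e ∣ x + a') := by
    intro x e he
    constructor
    · intro h
      have h5 : x + a' ≡ e * a' [MOD e] := by
        rw [← add_pred_mul he]; exact Nat.ModEq.add_right a' h
      exact (Nat.modEq_zero_iff_dvd.1 (h5.trans (Nat.modEq_zero_iff_dvd.2 (dvd_mul_right e a'))))
    · intro h
      apply Nat.ModEq.add_right_cancel' a'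
      rw [add_pred_mul he]
      exact (Nat.modEq_zero_iff_dvd.2 h).trans (Nat.modEq_zero_iff_dvd.2 (dvd_mul_right e a')).symm
  rw [← k1 n d hd, ← k2 n d' hd']
  constructor
  · rintro ⟨h1, h2, h3⟩
    refine ⟨h1.trans hc3.symm, ?_⟩
    refine Nat.ModEq.trans ?_ hc4.symm
    exact Nat.mod_lcm (h2.trans hc1.symm) (h3.trans hc2.symm)
  · rintro ⟨h1, h2⟩
    have h3 : n ≡ c1 [MOD Nat.lcm d d'] := h2.trans hc4
    exact ⟨h1.trans hc3, (h3.of_dvd (Nat.dvd_lcm_left d d')).trans hc1,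
      (h3.of_dvd (Nat.dvd_lcm_right d d')).trans hc2⟩

lemma count_pair {k N' W d d' a a' : ℕ} (b : ℕ) (hW : 0 < W) (hWd : Nat.Coprime W d) (hWd' : Nat.Coprime W d')
    (hd : 0 < d) (hd' : 0 < d') (hN : k + 1 ≤ N') :
    |(((Sb k N' W b).filter (fun n => d ∣ n + a ∧ d' ∣ n + a')).card : ℝ) -
      (if Nat.gcd d d' ∣ df a a' then ((N' : ℝ) - (k + 1)) / W / (Nat.lcm d d' : ℝ) else 0)| ≤ 1 := by
  classical
  have hl : 0 < Nat.lcm d d' := Nat.lcm_pos hd hd'
  split_ifs with hg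
  · obtain ⟨c, hc⟩ := exists_cls (b := b) hWd hWd' hd hd' hg
    have e : (Sb k N' W b).filter (fun n => d ∣ n + a ∧ d' ∣ n + a') =
        (Ioc (k + 1) N').filter (fun n => n ≡ c [MOD W * Nat.lcm d d']) := by
      unfold Sb
      rw [filter_filter]
      apply filter_congr
      intro n _
      exact hc n
    rw [e]
    have h1 := Uni.size_bounds (k + 1) N' c (Nat.mul_pos hW hl) hN
    have e2 : ((N' : ℝ) - ((k + 1 : ℕ) : ℝ)) / ((W * Nat.lcm d d' : ℕ) : ℝ) =
        ((N' : ℝ) - (k + 1)) / W / (Nat.lcm d d' : ℝ) := by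
      push_cast
      rw [div_div]
    rw [e2] at h1
    rw [abs_le]
    constructor <;> linarith [h1.1, h1.2]
  · have e : (Sb k N' W b).filter (fun n => d ∣ n + a ∧ d' ∣ n + a') = ∅ := by
      rw [filter_eq_empty_iff]
      rintro n _ ⟨h1, h2⟩
      exact hg (dvd_df ((Nat.gcd_dvd_left d d').trans h1) ((Nat.gcd_dvd_right d d').trans h2))
    rw [e, card_empty, Nat.cast_zero, sub_zero, abs_zero]
    exact zero_le_one

end Pool.Agent.TH891.BD
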