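import Mathlib
import Pool.Agent.TH891.BD.B3

set_option autoImplicit false

/-! The second moment of the number of primes in a shifted set, in a residue class, helper891. -/

namespace Pool.Agent.TH891.BD

open Finset Pool.Agent.H387R2

/-- level of distribution -/
def BVh (N' m : ℕ) (E : ℝ) : Prop := ∀ L : ℕ → Finset ℕ, H343E.Fam 1 L →
  ∑ q ∈ Icc 1 m, ∑ a ∈ L q, |H343E.piAP N' q a - H343E.pi1 N' / (Nat.totient q : ℝ)| ≤ E

lemma BV_sum {N' W Q : ℕ} {E : ℝ} (hW : 0 < W) (hE : BVh N' (W * Q) E) {D1 : Finset ℕ}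
    (hD1 : D1 ⊆ DD W Q) (r : ℕ → ℕ) (hr : ∀ d ∈ D1, r d < W * d ∧ (r d).Coprime (W * d)) :
    ∑ d ∈ D1, |H343E.piAP N' (W * d) (r d) - H343E.pi1 N' / (Nat.totient (W * d) : ℝ)| ≤ E := by
  classical
  have h := hE (fun m => if W ∣ m ∧ m / W ∈ D1 then {r (m / W)} else ∅) ⟨by
    intro m a ha
    split_ifs at ha with hm
    · rw [mem_singleton] at ha
      have h1 := hr _ hm.2
      rw [Nat.mul_div_cancel' hm.1] at h1
      rw [ha]; exact h1
    · exact absurd ha (notMem_empty _), by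
    intro m
    split_ifs <;> simp⟩
  refine le_trans ?_ h
  have e1 : ∑ d ∈ D1, |H343E.piAP N' (W * d) (r d) - H343E.pi1 N' / (Nat.totient (W * d) : ℝ)| =
      ∑ m ∈ D1.image (fun d => W * d),
        |H343E.piAP N' m (r (m / W)) - H343E.pi1 N' / (Nat.totient m : ℝ)| := by
    rw [sum_image]
    · apply sum_congr rfl
      intro d _
      rw [Nat.mul_div_cancel_left _ hW]
    · intro d _ d' _ hdd
      exact Nat.eq_of_mul_eq_mul_left hW hdd
  rw [e1]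
  have e2 : ∀ m ∈ D1.image (fun d => W * d),
      |H343E.piAP N' m (r (m / W)) - H343E.pi1 N' / (Nat.totient m : ℝ)| =
      ∑ a ∈ (if W ∣ m ∧ m / W ∈ D1 then ({r (m / W)} : Finset ℕ) else ∅),
        |H343E.piAP N' m a - H343E.pi1 N' / (Nat.totient m : ℝ)| := by
    intro m hm
    obtain ⟨d, hd, rfl⟩ := mem_image.1 hm
    rw [if_pos ⟨dvd_mul_right W d, by rw [Nat.mul_div_cancel_left _ hW]; exact hd⟩, sum_singleton]
  rw [sum_congr rfl e2]
  apply sum_le_sum_of_subset_of_nonneg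
  · intro m hm
    obtain ⟨d, hd, rfl⟩ := mem_image.1 hm
    obtain ⟨⟨h1, h2⟩, _⟩ := mem_DD.1 (hD1 hd)
    rw [mem_Icc]
    exact ⟨Nat.mul_pos hW h1, Nat.mul_le_mul_left W h2⟩
  · intro m _ _
    exact sum_nonneg fun _ _ => abs_nonneg _

/-- bound for the weights -/
noncomputable def LL (Q : ℕ) : ℝ := 2 * (1 + Real.log Q) ^ 2

lemma LL_nonneg (Q : ℕ) : 0 ≤ LL Q := by unfold LL; positivity

lemma card_DD_le (W Q : ℕ) : ((DD W Q).card : ℝ) ≤ Q := by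
  have : (DD W Q).card ≤ Q := by
    unfold DD
    refine (card_filter_le _ _).trans ?_
    rw [Nat.card_Icc]; omega
  exact_mod_cast this

theorem ZY_term {k N' W Q b a a' M : ℕ} {E : ℝ} (hW : 0 < W) (hE : BVh N' (W * Q) E) (ha : a ≤ M)
    (hba : Nat.Coprime W (b + a)) :
    |∑ d ∈ DD W Q, lam W Q d * (((Sb k N' W b).filter (fun n => (n + a).Prime ∧ d ∣ n + a')).card : ℝ) -
      H343E.pi1 N' / Nat.totient W * SS W Q (df a a')| ≤ LL Q * (E + Q * (M + k + 1)) := by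
  classical
  set D1 := (DD W Q).filter (fun d => Nat.Coprime d (df a a')) with hD1
  have hex : ∀ d ∈ D1, ∃ r, (r < W * d ∧ r.Coprime (W * d)) ∧
      ∀ n, n + a ≡ r [MOD W * d] ↔ (n ≡ b [MOD W] ∧ d ∣ n + a') := by
    intro d hd
    obtain ⟨hd1, hd2⟩ := mem_filter.1 hd
    obtain ⟨⟨h1, _⟩, _, h3⟩ := mem_DD.1 hd1
    exact exists_res h3 hW h1 hba hd2
  choose! r hr1 hr2 using hex
  have hBV := BV_sum hW hE (filter_subset _ _ : D1 ⊆ DD W Q) r hr1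
  have hphi : ∀ d ∈ DD W Q, H343E.pi1 N' / Nat.totient W * (1 / (Nat.totient d : ℝ)) =
      H343E.pi1 N' / (Nat.totient (W * d) : ℝ) := by
    intro d hd
    obtain ⟨⟨h1, _⟩, _, h3⟩ := mem_DD.1 hd
    rw [Nat.totient_mul h3]
    push_cast
    rw [mul_one_div, div_div]
  have e1 : H343E.pi1 N' / Nat.totient W * SS W Q (df a a') =
      ∑ d ∈ DD W Q, lam W Q d * (if d ∈ D1 then H343E.pi1 N' / (Nat.totient (W * d) : ℝ) else 0) := by
    rw [← T1_eq, mul_sum, sum_filter]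
    apply sum_congr rfl
    intro d hd
    have hiff : d ∈ D1 ↔ Nat.Coprime d (df a a') := by
      rw [hD1, mem_filter]
      exact ⟨fun h => h.2, fun h => ⟨hd, h⟩⟩
    by_cases h1 : Nat.Coprime d (df a a')
    · rw [if_pos h1, if_pos (hiff.2 h1), ← hphi d hd]
      ring
    · rw [if_neg h1, if_neg (fun h => h1 (hiff.1 h)), mul_zero]
  rw [e1, ← sum_sub_distrib]
  refine (abs_sum_le_sum_abs _ _).trans ?_
  have hM : (a:ℝ) ≤ M := by exact_mod_cast ha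
  have hk : (0:ℝ) ≤ k := Nat.cast_nonneg k
  have ha0 : (0:ℝ) ≤ a := Nat.cast_nonneg a
  have hterm : ∀ d ∈ DD W Q, |lam W Q d * (((Sb k N' W b).filter
      (fun n => (n + a).Prime ∧ d ∣ n + a')).card : ℝ) -
      lam W Q d * (if d ∈ D1 then H343E.pi1 N' / (Nat.totient (W * d) : ℝ) else 0)| ≤
      LL Q * ((if d ∈ D1 then |H343E.piAP N' (W * d) (r d) - H343E.pi1 N' / (Nat.totient (W * d) : ℝ)| else 0) +
        (M + k + 1)) := by
    intro d hd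
    rw [← mul_sub, abs_mul]
    apply mul_le_mul (lam_le hd) _ (abs_nonneg _) (LL_nonneg Q)
    by_cases h1 : d ∈ D1
    · rw [if_pos h1, if_pos h1]
      have e2 : (Sb k N' W b).filter (fun n => (n + a).Prime ∧ d ∣ n + a') =
          (Ioc (k + 1) N').filter (fun n => (n + a).Prime ∧ n + a ≡ r d [MOD W * d]) := by
        unfold Sb
        rw [filter_filter]
        apply filter_congr
        intro n _
        rw [hr2 d h1 n]
        tauto
      rw [e2]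
      have h2 := count_prime k N' (W * d) (r d) a
      have h3 := abs_sub_le ((((Ioc (k + 1) N').filter (fun n => (n + a).Prime ∧ n + a ≡ r d [MOD W * d])).card : ℕ) : ℝ)
        (H343E.piAP N' (W * d) (r d)) (H343E.pi1 N' / (Nat.totient (W * d) : ℝ))
      linarith
    · rw [if_neg h1, if_neg h1, sub_zero, Nat.abs_cast]
      have h2 : ¬ Nat.Coprime d (df a a') := fun h => h1 (mem_filter.2 ⟨hd, h⟩)
      have h3 : ((((Sb k N' W b).filter (fun n => (n + a).Prime ∧ d ∣ n + a')).card : ℕ) : ℝ) ≤ 1 := by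
        exact_mod_cast count_few (Sb k N' W b) h2
      linarith
  refine (sum_le_sum hterm).trans ?_
  rw [← mul_sum]
  apply mul_le_mul_of_nonneg_left _ (LL_nonneg Q)
  rw [sum_add_distrib, sum_const, nsmul_eq_mul]
  have h4 : ∑ d ∈ DD W Q, (if d ∈ D1 then |H343E.piAP N' (W * d) (r d) - H343E.pi1 N' / (Nat.totient (W * d) : ℝ)| else 0) =
      ∑ d ∈ D1, |H343E.piAP N' (W * d) (r d) - H343E.pi1 N' / (Nat.totient (W * d) : ℝ)| := by
    rw [← sum_filter]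
    congr 1
    ext d
    rw [mem_filter, hD1, mem_filter]
    tauto
  rw [h4]
  apply add_le_add hBV
  exact mul_le_mul_of_nonneg_right (card_DD_le W Q) (by positivity)

theorem YY_term {k N' W Q b a a' : ℕ} (hW : 0 < W) (hN : k + 1 ≤ N') :
    |∑ d ∈ DD W Q, ∑ d' ∈ DD W Q, lam W Q d * lam W Q d' *
      (((Sb k N' W b).filter (fun n => d ∣ n + a ∧ d' ∣ n + a')).card : ℝ) -
      ((N' : ℝ) - (k + 1)) / W * SS W Q (df a a')| ≤ (Q * LL Q) ^ 2 := by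
  classical
  have e1 : ((N' : ℝ) - (k + 1)) / W * SS W Q (df a a') = ∑ d ∈ DD W Q, ∑ d' ∈ DD W Q, lam W Q d * lam W Q d' *
      (if Nat.gcd d d' ∣ df a a' then ((N' : ℝ) - (k + 1)) / W / (Nat.lcm d d' : ℝ) else 0) := by
    rw [← T2_eq, mul_sum]
    apply sum_congr rfl
    intro d _
    rw [mul_sum]
    apply sum_congr rfl
    intro d' _
    split_ifs
    · ring
    · ring
  rw [e1, ← sum_sub_distrib]
  have h1 : |∑ d ∈ DD W Q, (∑ d' ∈ DD W Q, lam W Q d * lam W Q d' *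
      (((Sb k N' W b).filter (fun n => d ∣ n + a ∧ d' ∣ n + a')).card : ℝ) - ∑ d' ∈ DD W Q, lam W Q d * lam W Q d' *
      (if Nat.gcd d d' ∣ df a a' then ((N' : ℝ) - (k + 1)) / W / (Nat.lcm d d' : ℝ) else 0))| ≤
      ∑ d ∈ DD W Q, ∑ d' ∈ DD W Q, |lam W Q d| * |lam W Q d'| := by
    refine (abs_sum_le_sum_abs _ _).trans (sum_le_sum fun d hd => ?_)
    rw [← sum_sub_distrib]
    refine (abs_sum_le_sum_abs _ _).trans (sum_le_sum fun d' hd' => ?_)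
    rw [← mul_sub, abs_mul, abs_mul]
    obtain ⟨⟨p1, _⟩, _, p3⟩ := mem_DD.1 hd
    obtain ⟨⟨q1, _⟩, _, q3⟩ := mem_DD.1 hd'
    have := count_pair (k := k) (N' := N') (a := a) (a' := a') b hW p3 q3 p1 q1 hN
    calc _ ≤ |lam W Q d| * |lam W Q d'| * 1 := mul_le_mul_of_nonneg_left this (by positivity)
      _ = _ := mul_one _
  refine h1.trans ?_
  rw [← sum_mul_sum, ← sq]
  apply pow_le_pow_left₀ (sum_nonneg fun _ _ => abs_nonneg _)
  exact sum_abs_lam_le W Q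

/-- the approximant -/
noncomputable def Yf (W Q a n : ℕ) : ℝ := ∑ d ∈ DD W Q, if d ∣ n + a then lam W Q d else 0

lemma XX_eq (B : Finset ℕ) (n : ℕ) : (Uni.XX B n : ℝ) = ∑ a ∈ B, if (n + a).Prime then (1:ℝ) else 0 := by
  unfold Uni.XX
  rw [card_filter]
  push_cast
  rfl

lemma ZY_eq (S B : Finset ℕ) (W Q : ℕ) :
    ∑ n ∈ S, (Uni.XX B n : ℝ) * ∑ a' ∈ B, Yf W Q a' n =
      ∑ a ∈ B, ∑ a' ∈ B, ∑ d ∈ DD W Q, lam W Q d * ((S.filter (fun n => (n + a).Prime ∧ d ∣ n + a')).card : ℝ) := by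
  have e1 : ∀ n ∈ S, (Uni.XX B n : ℝ) * ∑ a' ∈ B, Yf W Q a' n =
      ∑ a ∈ B, ∑ a' ∈ B, (if (n + a).Prime then (1:ℝ) else 0) * Yf W Q a' n := by
    intro n _
    rw [XX_eq, sum_mul_sum]
  rw [sum_congr rfl e1, sum_comm]
  apply sum_congr rfl
  intro a _
  rw [sum_comm]
  apply sum_congr rfl
  intro a' _
  have e2 : ∀ n ∈ S, (if (n + a).Prime then (1:ℝ) else 0) * Yf W Q a' n =
      ∑ d ∈ DD W Q, lam W Q d * (if (n + a).Prime ∧ d ∣ n + a' then (1:ℝ) else 0) := by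
    intro n _
    unfold Yf
    rw [mul_sum]
    apply sum_congr rfl
    intro d _
    by_cases h1 : (n + a).Prime
    · by_cases h2 : d ∣ n + a'
      · rw [if_pos h1, if_pos h2, if_pos ⟨h1, h2⟩]; ring
      · have h3 : ¬ ((n + a).Prime ∧ d ∣ n + a') := fun h => h2 h.2
        rw [if_neg h2, if_neg h3]; ring
    · have h3 : ¬ ((n + a).Prime ∧ d ∣ n + a') := fun h => h1 h.1
      rw [if_neg h1, if_neg h3]; ring
  rw [sum_congr rfl e2, sum_comm]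
  apply sum_congr rfl
  intro d _
  rw [← mul_sum, card_filter]
  push_cast
  rfl

lemma YY_eq (S B : Finset ℕ) (W Q : ℕ) :
    ∑ n ∈ S, (∑ a ∈ B, Yf W Q a n) ^ 2 =
      ∑ a ∈ B, ∑ a' ∈ B, ∑ d ∈ DD W Q, ∑ d' ∈ DD W Q, lam W Q d * lam W Q d' *
        ((S.filter (fun n => d ∣ n + a ∧ d' ∣ n + a')).card : ℝ) := by
  have e1 : ∀ n ∈ S, (∑ a ∈ B, Yf W Q a n) ^ 2 = ∑ a ∈ B, ∑ a' ∈ B, Yf W Q a n * Yf W Q a' n := by
    intro n _
    rw [sq, sum_mul_sum]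
  rw [sum_congr rfl e1, sum_comm]
  apply sum_congr rfl
  intro a _
  rw [sum_comm]
  apply sum_congr rfl
  intro a' _
  have e2 : ∀ n ∈ S, Yf W Q a n * Yf W Q a' n =
      ∑ d ∈ DD W Q, ∑ d' ∈ DD W Q, lam W Q d * lam W Q d' * (if d ∣ n + a ∧ d' ∣ n + a' then (1:ℝ) else 0) := by
    intro n _
    unfold Yf
    rw [sum_mul_sum]
    apply sum_congr rfl
    intro d _
    apply sum_congr rfl
    intro d' _
    by_cases h1 : d ∣ n + a
    · by_cases h2 : d' ∣ n + a'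
      · rw [if_pos h1, if_pos h2, if_pos ⟨h1, h2⟩]; ring
      · have h3 : ¬ (d ∣ n + a ∧ d' ∣ n + a') := fun h => h2 h.2
        rw [if_neg h2, if_neg h3]; ring
    · have h3 : ¬ (d ∣ n + a ∧ d' ∣ n + a') := fun h => h1 h.1
      rw [if_neg h1, if_neg h3]; ring
  rw [sum_congr rfl e2, sum_comm]
  apply sum_congr rfl
  intro d _
  rw [sum_comm]
  apply sum_congr rfl
  intro d' _
  rw [← mul_sum, card_filter]
  push_cast
  rfl

/-- the second moment inequality -/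
theorem second_moment {k N' W Q b M : ℕ} {E u : ℝ} (hW : 0 < W) (hE : BVh N' (W * Q) E) (hN : k + 1 ≤ N')
    {B : Finset ℕ} (hB : ∀ a ∈ B, a ≤ M ∧ Nat.Coprime W (b + a)) (hu : 0 ≤ u) :
    u * (2 * (H343E.pi1 N' / Nat.totient W) - u * (((N' : ℝ) - (k + 1)) / W)) *
      (∑ a ∈ B, ∑ a' ∈ B, SS W Q (df a a')) -
      (B.card : ℝ) ^ 2 * (2 * u * (LL Q * (E + Q * (M + k + 1))) + u ^ 2 * (Q * LL Q) ^ 2) ≤
    ∑ n ∈ Sb k N' W b, (Uni.XX B n : ℝ) ^ 2 := by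
  set S := Sb k N' W b with hS
  set T := ∑ a ∈ B, ∑ a' ∈ B, SS W Q (df a a') with hT
  have h0 : 0 ≤ ∑ n ∈ S, ((Uni.XX B n : ℝ) - u * ∑ a ∈ B, Yf W Q a n) ^ 2 := sum_nonneg fun _ _ => sq_nonneg _
  have h1 : ∑ n ∈ S, ((Uni.XX B n : ℝ) - u * ∑ a ∈ B, Yf W Q a n) ^ 2 =
      ∑ n ∈ S, (Uni.XX B n : ℝ) ^ 2 - 2 * u * (∑ n ∈ S, (Uni.XX B n : ℝ) * ∑ a' ∈ B, Yf W Q a' n) +
        u ^ 2 * ∑ n ∈ S, (∑ a ∈ B, Yf W Q a n) ^ 2 := by
    rw [mul_sum, mul_sum, ← sum_sub_distrib, ← sum_add_distrib]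
    apply sum_congr rfl
    intro n _
    ring
  have h2 : H343E.pi1 N' / Nat.totient W * T - (B.card : ℝ) ^ 2 * (LL Q * (E + Q * (M + k + 1))) ≤
      ∑ n ∈ S, (Uni.XX B n : ℝ) * ∑ a' ∈ B, Yf W Q a' n := by
    rw [ZY_eq, hT, mul_sum]
    have e : (B.card : ℝ) ^ 2 * (LL Q * (E + Q * (M + k + 1))) =
        ∑ _a ∈ B, ∑ _a' ∈ B, (LL Q * (E + Q * (M + k + 1))) := by
      rw [sum_const, sum_const, nsmul_eq_mul, nsmul_eq_mul]; ring
    rw [e, ← sum_sub_distrib]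
    apply sum_le_sum
    intro a ha
    rw [mul_sum, ← sum_sub_distrib]
    apply sum_le_sum
    intro a' _
    have := (abs_le.1 (ZY_term (k := k) (a' := a') hW hE (hB a ha).1 (hB a ha).2)).1
    rw [← hS] at this
    linarith
  have h3 : ∑ n ∈ S, (∑ a ∈ B, Yf W Q a n) ^ 2 ≤
      ((N' : ℝ) - (k + 1)) / W * T + (B.card : ℝ) ^ 2 * (Q * LL Q) ^ 2 := by
    rw [YY_eq, hT, mul_sum]
    have e : (B.card : ℝ) ^ 2 * (Q * LL Q) ^ 2 = ∑ _a ∈ B, ∑ _a' ∈ B, (Q * LL Q) ^ 2 := by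
      rw [sum_const, sum_const, nsmul_eq_mul, nsmul_eq_mul]; ring
    rw [e, ← sum_add_distrib]
    apply sum_le_sum
    intro a ha
    rw [mul_sum, ← sum_add_distrib]
    apply sum_le_sum
    intro a' _
    have := (abs_le.1 (YY_term (k := k) (N' := N') (b := b) (a := a) (a' := a') (Q := Q) hW hN)).2
    rw [← hS] at this
    linarith
  have h4 : 2 * u * (H343E.pi1 N' / Nat.totient W * T - (B.card : ℝ) ^ 2 * (LL Q * (E + Q * (M + k + 1)))) ≤
      2 * u * ∑ n ∈ S, (Uni.XX B n : ℝ) * ∑ a' ∈ B, Yf W Q a' n :=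
    mul_le_mul_of_nonneg_left h2 (by positivity)
  have h5 : u ^ 2 * ∑ n ∈ S, (∑ a ∈ B, Yf W Q a n) ^ 2 ≤
      u ^ 2 * (((N' : ℝ) - (k + 1)) / W * T + (B.card : ℝ) ^ 2 * (Q * LL Q) ^ 2) :=
    mul_le_mul_of_nonneg_left h3 (by positivity)
  have e : u * (2 * (H343E.pi1 N' / Nat.totient W) - u * (((N' : ℝ) - (k + 1)) / W)) * T -
      (B.card : ℝ) ^ 2 * (2 * u * (LL Q * (E + Q * (M + k + 1))) + u ^ 2 * (Q * LL Q) ^ 2) =
      2 * u * (H343E.pi1 N' / Nat.totient W * T - (B.card : ℝ) ^ 2 * (LL Q * (E + Q * (M + k + 1)))) -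
      u ^ 2 * (((N' : ℝ) - (k + 1)) / W * T + (B.card : ℝ) ^ 2 * (Q * LL Q) ^ 2) := by ring
  rw [e]
  linarith

/-- the diagonal and the off-diagonal terms -/
theorem SS_sum_ge {y Q M : ℕ} (hy : 2 ≤ y) (hQ : 1 ≤ Q) {ε : ℝ} (B : Finset ℕ) (hB : ∀ a ∈ B, a ≤ M)
    (hnear : ∀ h : ℕ, 1 ≤ h → h ≤ M → Pool.Agent.H386R2.HL.tt y h * Real.exp (1 / ((y : ℝ) - 1)) - 1 ≤ ε) :
    (B.card : ℝ) * (((Nat.totient (Uni.WW y) : ℝ) / Uni.WW y) * Real.log ((Q : ℝ) + 1)) +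
      (1 - ε) * (B.card * (B.card - 1)) ≤ ∑ a ∈ B, ∑ a' ∈ B, SS (Uni.WW y) Q (df a a') := by
  classical
  have h1 : ∀ a ∈ B, ((Nat.totient (Uni.WW y) : ℝ) / Uni.WW y) * Real.log ((Q : ℝ) + 1) + (1 - ε) * (B.card - 1) ≤
      ∑ a' ∈ B, SS (Uni.WW y) Q (df a a') := by
    intro a ha
    rw [← add_sum_erase B _ ha, df_self]
    have h2 : (1 - ε) * ((B.card : ℝ) - 1) = ∑ _a' ∈ B.erase a, (1 - ε) := by
      rw [sum_const, nsmul_eq_mul, card_erase_of_mem ha, Nat.cast_sub (card_pos.2 ⟨a, ha⟩)]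
      push_cast
      ring
    rw [h2]
    apply add_le_add (SS_zero_ge (Uni.WW_pos y) Q)
    apply sum_le_sum
    intro a' ha'
    have hne : a' ≠ a := ne_of_mem_erase ha'
    have h3 := SS_near hy Q hQ (df_pos hne.symm)
    have h4 := hnear (df a a') (df_pos hne.symm) (df_le (hB a ha) (hB a' (mem_of_mem_erase ha')))
    have := (abs_le.1 h3).1
    linarith
  calc _ = ∑ _a ∈ B, (((Nat.totient (Uni.WW y) : ℝ) / Uni.WW y) * Real.log ((Q : ℝ) + 1) + (1 - ε) * (B.card - 1)) := by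
        rw [sum_const, nsmul_eq_mul]; ring
    _ ≤ _ := sum_le_sum h1

end Pool.Agent.TH891.BD
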