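import Mathlib
import Pool.Agent.TH891.BD.B4

set_option autoImplicit false

/-! Convexity, helper891. -/

namespace Pool.Agent.TH891.BD

open Finset Pool.Agent.H387R2

/-- cut off falling factorial -/
noncomputable def PP (k : ℕ) (t : ℝ) : ℝ := ∏ i ∈ range k, max 0 (t - i)

lemma PP_nonneg (k : ℕ) (t : ℝ) : 0 ≤ PP k t := prod_nonneg fun _ _ => le_max_left _ _

lemma PP_convex (k : ℕ) : ConvexOn ℝ Set.univ (PP k) ∧ Monotone (PP k) := by
  induction k with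
  | zero =>
    have : PP 0 = fun _ => (1:ℝ) := by funext u; simp [PP]
    rw [this]
    exact ⟨convexOn_const 1 convex_univ, monotone_const⟩
  | succ k ih =>
    have e : PP (k + 1) = fun u => PP k u * max 0 (u - k) := by
      funext u
      unfold PP
      rw [prod_range_succ]
    have h1 : ConvexOn ℝ Set.univ (fun u : ℝ => max 0 (u - (k : ℝ))) := by
      apply ConvexOn.sup (convexOn_const 0 convex_univ)
      refine ⟨convex_univ, fun x _ y _ a b _ _ hab => ?_⟩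
      simp only [smul_eq_mul]
      have : a = 1 - b := by linarith
      subst this
      nlinarith
    have h2 : Monotone (fun u : ℝ => max 0 (u - (k : ℝ))) := by
      intro u v huv
      exact max_le_max le_rfl (by linarith)
    rw [e]
    constructor
    · exact ConvexOn.mul ih.1 h1 (fun x _ => PP_nonneg k x) (fun x _ => le_max_left _ _)
        ((ih.2.monovary h2).monovaryOn _)
    · intro u v huv
      exact mul_le_mul (ih.2 huv) (h2 huv) (le_max_left _ _) (PP_nonneg k v)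

lemma PP_desc (k X : ℕ) : (X : ℝ) * PP k ((X : ℝ) - 1) = (X.descFactorial (k + 1) : ℝ) := by
  rw [← Uni.GG_nat]
  unfold Uni.GG PP
  congr 1
  apply prod_congr rfl
  intro i _
  congr 1
  ring

/-- size biased Jensen inequality for the falling factorial -/
theorem jensen2 {ι : Type*} (S : Finset ι) (Z : ι → ℕ) (k : ℕ) {ν : ℝ}
    (h : (ν + 1) * ∑ n ∈ S, (Z n : ℝ) ≤ ∑ n ∈ S, (Z n : ℝ) ^ 2) :
    (∑ n ∈ S, (Z n : ℝ)) * PP k ν ≤ ∑ n ∈ S, ((Z n).descFactorial (k + 1) : ℝ) := by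
  set s := ∑ n ∈ S, (Z n : ℝ) with hs
  have hs0 : 0 ≤ s := sum_nonneg fun _ _ => Nat.cast_nonneg _
  rcases hs0.lt_or_eq with hpos | hzero
  · have h1 := (PP_convex k).1.map_sum_le (t := S) (w := fun n => (Z n : ℝ) / s)
      (p := fun n => (Z n : ℝ) - 1) (fun _ _ => by positivity) (by
        rw [← sum_div]; exact div_self hpos.ne') (fun _ _ => Set.mem_univ _)
    simp only [smul_eq_mul] at h1
    have h2 : ν ≤ ∑ n ∈ S, (Z n : ℝ) / s * ((Z n : ℝ) - 1) := by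
      have e : ∑ n ∈ S, (Z n : ℝ) / s * ((Z n : ℝ) - 1) = (∑ n ∈ S, (Z n : ℝ) ^ 2 - s) / s := by
        rw [hs, ← sum_sub_distrib, sum_div]
        apply sum_congr rfl
        intro n _
        ring
      rw [e, le_div_iff₀ hpos]
      linarith
    have h3 := ((PP_convex k).2 h2).trans h1
    have h4 : ∑ n ∈ S, (Z n : ℝ) / s * PP k ((Z n : ℝ) - 1) = (∑ n ∈ S, ((Z n).descFactorial (k + 1) : ℝ)) / s := by
      rw [sum_div]
      apply sum_congr rfl
      intro n _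
      rw [← PP_desc]
      ring
    rw [h4, le_div_iff₀ hpos] at h3
    linarith
  · rw [← hzero, zero_mul]
    exact sum_nonneg fun _ _ => Nat.cast_nonneg _

/-- `ψ(v) = ∏_{i < k} (κ₁ - (κ₂ + i) v)_+` -/
noncomputable def psi (k : ℕ) (κ₁ κ₂ v : ℝ) : ℝ := ∏ i ∈ range k, max 0 (κ₁ - (κ₂ + i) * v)

lemma psi_nonneg (k : ℕ) (κ₁ κ₂ v : ℝ) : 0 ≤ psi k κ₁ κ₂ v := prod_nonneg fun _ _ => le_max_left _ _

lemma psi_anti (k : ℕ) {κ₁ κ₂ : ℝ} (hκ : 0 ≤ κ₂) : Antitone (psi k κ₁ κ₂) := by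
  intro u v huv
  unfold psi
  apply prod_le_prod
  · intro i _; exact le_max_left _ _
  · intro i _
    apply max_le_max le_rfl
    have : (0:ℝ) ≤ κ₂ + i := by positivity
    nlinarith

lemma psi_convex (k : ℕ) {κ₁ κ₂ : ℝ} (hκ : 0 ≤ κ₂) : ConvexOn ℝ Set.univ (psi k κ₁ κ₂) := by
  induction k with
  | zero =>
    have : psi 0 κ₁ κ₂ = fun _ => (1:ℝ) := by funext u; simp [psi]
    rw [this]
    exact convexOn_const 1 convex_univ
  | succ k ih =>
    have : psi (k + 1) κ₁ κ₂ = fun u => psi k κ₁ κ₂ u * max 0 (κ₁ - (κ₂ + k) * u) := by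
      funext u
      unfold psi
      rw [prod_range_succ]
    rw [this]
    have h1 : ConvexOn ℝ Set.univ (fun u : ℝ => max 0 (κ₁ - (κ₂ + k) * u)) := by
      apply ConvexOn.sup (convexOn_const 0 convex_univ)
      refine ⟨convex_univ, fun x _ y _ a b _ _ hab => ?_⟩
      simp only [smul_eq_mul]
      have : a = 1 - b := by linarith
      subst this
      nlinarith
    refine ConvexOn.mul ih h1 (fun x _ => psi_nonneg k κ₁ κ₂ x) (fun x _ => le_max_left _ _) ?_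
    have h2 : Antitone (fun u : ℝ => max 0 (κ₁ - (κ₂ + k) * u)) := by
      intro u v huv
      apply max_le_max le_rfl
      have : (0:ℝ) ≤ κ₂ + k := by positivity
      nlinarith
    exact ((psi_anti k hκ).monovary h2).monovaryOn _

/-- `H(x) = x ∏_{i < k} (κ₁ x - κ₂ - i)_+` -/
noncomputable def HH (k : ℕ) (κ₁ κ₂ x : ℝ) : ℝ := x * PP k (κ₁ * x - κ₂)

lemma HH_eq (k : ℕ) (κ₁ κ₂ : ℝ) {x : ℝ} (hx : 0 < x) : HH k κ₁ κ₂ x = x ^ (k + 1) * psi k κ₁ κ₂ (1 / x) := by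
  unfold HH PP psi
  rw [pow_succ, mul_comm (x ^ k) x, mul_assoc]
  congr 1
  have : x ^ k = ∏ _i ∈ range k, x := by rw [prod_const, card_range]
  rw [this, ← prod_mul_distrib]
  apply prod_congr rfl
  intro i _
  rw [mul_max_of_nonneg _ _ hx.le, mul_zero]
  congr 1
  field_simp
  ring

lemma HH_zero (k : ℕ) (κ₁ κ₂ : ℝ) : HH k κ₁ κ₂ 0 = 0 := by simp [HH]

lemma HH_nonneg (k : ℕ) (κ₁ κ₂ : ℝ) {x : ℝ} (hx : 0 ≤ x) : 0 ≤ HH k κ₁ κ₂ x := mul_nonneg hx (PP_nonneg _ _)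

/-- the key convexity inequality -/
theorem key_gen {ι : Type*} (s : Finset ι) (x : ι → ℝ) (hx : ∀ i ∈ s, 0 ≤ x i) (k : ℕ) {κ₁ κ₂ : ℝ}
    (hκ : 0 ≤ κ₂) {μ : ℝ} (hμ : 0 < μ) (hmean : μ * s.card ≤ ∑ i ∈ s, x i) :
    psi k κ₁ κ₂ (1 / μ) * ∑ i ∈ s, x i ^ (k + 1) ≤ ∑ i ∈ s, HH k κ₁ κ₂ (x i) := by
  classical
  rcases s.eq_empty_or_nonempty with rfl | hne
  · simp
  have hc : (0:ℝ) < s.card := by exact_mod_cast hne.card_pos
  have hsum : 0 < ∑ i ∈ s, x i := lt_of_lt_of_le (by positivity) hmean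
  set s' := s.filter (fun i => 0 < x i) with hs'
  have hz : ∀ i ∈ s, i ∉ s' → x i = 0 := by
    intro i hi hi'
    rw [hs', mem_filter, not_and, not_lt] at hi'
    exact le_antisymm (hi' hi) (hx i hi)
  have hsub : s' ⊆ s := filter_subset _ _
  have e1 : ∑ i ∈ s, x i ^ (k + 1) = ∑ i ∈ s', x i ^ (k + 1) :=
    (sum_subset hsub fun i hi hi' => by rw [hz i hi hi']; simp).symm
  have e2 : ∑ i ∈ s, HH k κ₁ κ₂ (x i) = ∑ i ∈ s', HH k κ₁ κ₂ (x i) :=
    (sum_subset hsub fun i hi hi' => by rw [hz i hi hi', HH_zero]).symm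
  have hs'ne : s'.Nonempty := by
    by_contra h
    rw [not_nonempty_iff_eq_empty] at h
    have : ∑ i ∈ s, x i = 0 := sum_eq_zero fun i hi => hz i hi (by rw [h]; exact notMem_empty i)
    linarith
  have hpos : ∀ i ∈ s', 0 < x i := fun i hi => (mem_filter.1 hi).2
  set Wt := ∑ i ∈ s', x i ^ (k + 1) with hWt
  have hWt0 : 0 < Wt := sum_pos (fun i hi => pow_pos (hpos i hi) _) hs'ne
  -- Chebyshev
  have hcheb : μ * ∑ i ∈ s, x i ^ k ≤ ∑ i ∈ s, x i ^ (k + 1) := by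
    have h1 : MonovaryOn x (fun i => x i ^ k) (s : Set ι) := by
      intro i hi j hj hij
      by_contra hcon
      rw [not_le] at hcon
      have : x j ^ k ≤ x i ^ k := pow_le_pow_left₀ (hx j hj) hcon.le k
      exact absurd hij (not_lt.2 this)
    have h2 := h1.sum_mul_sum_le_card_mul_sum
    have h3 : ∑ i ∈ s, x i * x i ^ k = ∑ i ∈ s, x i ^ (k + 1) := sum_congr rfl fun i _ => by ring
    rw [h3] at h2
    have h4 : 0 ≤ ∑ i ∈ s, x i ^ k := sum_nonneg fun i hi => pow_nonneg (hx i hi) _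
    have h5 : μ * s.card * ∑ i ∈ s, x i ^ k ≤ s.card * ∑ i ∈ s, x i ^ (k + 1) :=
      (mul_le_mul_of_nonneg_right hmean h4).trans h2
    have h6 : (s.card : ℝ) * (μ * ∑ i ∈ s, x i ^ k) ≤ s.card * ∑ i ∈ s, x i ^ (k + 1) := by
      calc _ = μ * s.card * ∑ i ∈ s, x i ^ k := by ring
        _ ≤ _ := h5
    exact le_of_mul_le_mul_left h6 hc
  have hcheb' : μ * ∑ i ∈ s', x i ^ k ≤ Wt := by
    rw [e1] at hcheb
    refine le_trans ?_ hcheb
    apply mul_le_mul_of_nonneg_left _ hμ.le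
    exact sum_le_sum_of_subset_of_nonneg hsub fun i hi _ => pow_nonneg (hx i hi) _
  -- Jensen
  have hJ := (psi_convex k (κ₁ := κ₁) hκ).map_sum_le (t := s') (w := fun i => x i ^ (k + 1) / Wt)
    (p := fun i => 1 / x i)
    (fun i hi => div_nonneg (pow_nonneg (hpos i hi).le _) hWt0.le) (by
      rw [← sum_div]
      exact div_self hWt0.ne') (fun _ _ => Set.mem_univ _)
  simp only [smul_eq_mul] at hJ
  have h7 : ∑ i ∈ s', x i ^ (k + 1) / Wt * (1 / x i) ≤ 1 / μ := by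
    have : ∀ i ∈ s', x i ^ (k + 1) / Wt * (1 / x i) = x i ^ k / Wt := by
      intro i hi
      have := (hpos i hi).ne'
      rw [pow_succ]
      field_simp
    rw [sum_congr rfl this, ← sum_div, div_le_div_iff₀ hWt0 hμ]
    linarith
  have h8 := (psi_anti k (κ₁ := κ₁) hκ h7).trans hJ
  have h9 : ∑ i ∈ s', x i ^ (k + 1) / Wt * psi k κ₁ κ₂ (1 / x i) = (∑ i ∈ s', HH k κ₁ κ₂ (x i)) / Wt := by
    rw [sum_div]
    apply sum_congr rfl
    intro i hi
    rw [HH_eq k κ₁ κ₂ (hpos i hi)]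
    ring
  rw [h9, le_div_iff₀ hWt0] at h8
  rw [e1, e2]
  exact h8

/-- further conditions on `N` -/
structure Par2 (k : ℕ) (δ : ℝ) (N M y Q : ℕ) (E : ℝ) : Prop where
  hy : 2 ≤ y
  hQ : 1 ≤ Q
  hlogQ : (1 / 2 - δ) * Real.log N ≤ Real.log ((Q : ℝ) + 1)
  hBV : BVh (N - M) (Uni.WW y * Q) E
  hN : k + 1 ≤ N - M
  hpiu : H343E.pi1 (N - M) ≤ (1 + δ) * (N / Real.log N)
  hErr : ((M : ℝ) + 1) * (2 * (LL Q * (E + Q * (M + k + 1))) + (Q * LL Q) ^ 2) ≤ δ * (N / Uni.WW y)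
  hu : (Uni.WW y : ℝ) / (Nat.totient (Uni.WW y) * Real.log N) ≤ δ
  hnear : ∀ h : ℕ, 1 ≤ h → h ≤ M → Pool.Agent.H386R2.HL.tt y h * Real.exp (1 / ((y : ℝ) - 1)) - 1 ≤ 3 * δ

/-- the two constants -/
noncomputable def k1 (δ : ℝ) : ℝ := (1 - 2 * δ) * (1 - 3 * δ) / (1 + 2 * δ)

/-- the two constants -/
noncomputable def k2 (δ : ℝ) : ℝ := 1 - ((1 - 2 * δ) * (1 / 2 - 2 * δ) - δ) / (1 + 2 * δ)

lemma k2_nonneg {δ : ℝ} (hδ : 0 < δ) (hδ1 : δ ≤ 1 / 4) : 0 ≤ k2 δ := by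
  unfold k2
  rw [sub_nonneg, div_le_one (by linarith)]
  nlinarith

/-- the relative size of the fibre -/
noncomputable def xb (N W : ℕ) (A : Finset ℕ) (b : ℕ) : ℝ :=
  (Uni.Ab W A b).card * (W / (Nat.totient W * Real.log N))

lemma xb_nonneg {N : ℕ} (hL : 1 ≤ Real.log N) (W : ℕ) (A : Finset ℕ) (b : ℕ) : 0 ≤ xb N W A b := by
  unfold xb
  have : 0 ≤ Real.log N := by linarith
  positivity

variable {k : ℕ} {C δ : ℝ} {q N M y Q : ℕ} {E : ℝ}

/-- primes in shifted classes, upper bound -/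
lemma class_upper (hP : Uni.Par k C δ q N M y) (hP2 : Par2 k δ N M y Q E) (hδ : 0 < δ) {b a : ℕ} (ha : a ≤ M)
    (hc : Nat.Coprime (Uni.WW y) (b + a)) :
    (((Sb k (N - M) (Uni.WW y) b).filter (fun n => (n + a).Prime)).card : ℝ) ≤
      (1 + 2 * δ) * (N / (Nat.totient (Uni.WW y) * Real.log N)) := by
  classical
  have hW : 0 < Uni.WW y := Uni.WW_pos y
  set W := Uni.WW y with hWdef
  have hcW : (b + a) % W < W := Nat.mod_lt _ hW
  have hcc : ((b + a) % W).Coprime W := by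
    rw [Nat.Coprime, ← Nat.gcd_rec]; exact hc
  have h1 := (abs_le.1 (hP.hSW W hW hP.hW1 _ hcW hcc)).2
  have e : (Sb k (N - M) W b).filter (fun n => (n + a).Prime) =
      (Ioc (k + 1) (N - M)).filter (fun n => (n + a).Prime ∧ n + a ≡ (b + a) % W [MOD W]) := by
    unfold Sb
    rw [filter_filter]
    apply filter_congr
    intro n _
    constructor
    · rintro ⟨h2, h3⟩
      exact ⟨h3, (Nat.ModEq.add_right a h2).trans (Nat.mod_modEq _ _).symm⟩
    · rintro ⟨h2, h3⟩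
      exact ⟨Nat.ModEq.add_right_cancel' a (h3.trans (Nat.mod_modEq _ _)), h2⟩
  rw [e]
  have h2 := (abs_le.1 (count_prime k (N - M) W ((b + a) % W) a)).2
  have hφ : 0 < Nat.totient W := Nat.totient_pos.2 hW
  have hφ0 : (0:ℝ) < Nat.totient W := by exact_mod_cast hφ
  have hφ1 : (1:ℝ) ≤ Nat.totient W := by exact_mod_cast hφ
  have hφW : (Nat.totient W : ℝ) ≤ Real.log N ^ 2 :=
    (by exact_mod_cast Nat.totient_le W : (Nat.totient W : ℝ) ≤ W).trans hP.hW2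
  have hL : 0 < Real.log N := by linarith [hP.hL]
  have hN0 : (0:ℝ) ≤ N := Nat.cast_nonneg N
  have h3 : H343E.pi1 (N - M) / Nat.totient W ≤ (1 + δ) * (N / Real.log N) / Nat.totient W :=
    div_le_div_of_nonneg_right hP2.hpiu hφ0.le
  have h4 : (N:ℝ) / Real.log N ^ 3 ≤ N / (Nat.totient W * Real.log N) := by
    apply div_le_div_of_nonneg_left hN0 (by positivity)
    calc Nat.totient W * Real.log N ≤ Real.log N ^ 2 * Real.log N := by gcongr
      _ = Real.log N ^ 3 := by ring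
  have h5 := hP.herr
  have h6 : (a:ℝ) ≤ M := by exact_mod_cast ha
  have h7 : δ * ((N:ℝ) / Real.log N ^ 3) ≤ δ * (N / (Nat.totient W * Real.log N)) :=
    mul_le_mul_of_nonneg_left h4 hδ.le
  have e2 : (1 + δ) * ((N:ℝ) / Real.log N) / Nat.totient W = (1 + δ) * (N / (Nat.totient W * Real.log N)) := by
    field_simp
  rw [e2] at h3
  linarith

end Pool.Agent.TH891.BD
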