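import Mathlib
import Pool.Agent.TH891.BD.B5
import Pool.Agent.H387R2.U7

set_option autoImplicit false

/-! The lower bound in a class and the sum over the classes, helper891. -/

namespace Pool.Agent.TH891.BD

open Finset Pool.Agent.H387R2

variable {k : ℕ} {C δ : ℝ} {q N M y Q : ℕ} {E : ℝ}

/-- the lower bound in a class -/
theorem class_bound (hP : Uni.Par k C δ q N M y) (hP2 : Par2 k δ N M y Q E) (hδ : 0 < δ) (hδ1 : δ ≤ 1 / 4)
    {A : Finset ℕ} (hA : ∀ a ∈ A, a ≤ M) (b : ℕ) :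
    (1 - 2 * δ) * (N / Uni.WW y) * HH k (k1 δ) (k2 δ) (xb N (Uni.WW y) A b) ≤
      ∑ n ∈ (Ioc (k + 1) (N - M)).filter (fun n => n ≡ b [MOD Uni.WW y]),
        ((Uni.XX A n).descFactorial (k + 1) : ℝ) := by
  classical
  have hW : 0 < Uni.WW y := Uni.WW_pos y
  set W := Uni.WW y with hWdef
  have hW0 : (0:ℝ) < W := by exact_mod_cast hW
  have hL : 0 < Real.log N := by linarith [hP.hL]
  have hφ0 : (0:ℝ) < Nat.totient W := by exact_mod_cast Nat.totient_pos.2 hW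
  have hN0 : (0:ℝ) ≤ N := Nat.cast_nonneg N
  set B := Uni.Ab W A b with hBdef
  have hBA : B ⊆ A := filter_subset _ _
  have hBM : ∀ a ∈ B, a ≤ M := fun a ha => hA a (hBA ha)
  have hBc : ∀ a ∈ B, Nat.Coprime W (b + a) := fun a ha => (mem_filter.1 ha).2
  set S := Sb k (N - M) W b with hSdef
  have hS : (Ioc (k + 1) (N - M)).filter (fun n => n ≡ b [MOD W]) = S := rfl
  rw [hS]
  set u : ℝ := (W : ℝ) / (Nat.totient W * Real.log N) with hu
  have hu0 : 0 < u := by positivity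
  have huδ : u ≤ δ := hP2.hu
  have hx : xb N W A b = B.card * u := rfl
  set x := xb N W A b with hxdef
  have hx0 : 0 ≤ x := by rw [hx]; positivity
  set R : ℝ := (N : ℝ) / W with hR
  have hR0 : 0 ≤ R := by positivity
  have hG : (B.card : ℝ) * (N / (Nat.totient W * Real.log N)) = R * x := by
    rw [hx, hR, hu]; field_simp
  -- the sums
  have s1 : ∑ n ∈ S, (Uni.XX B n : ℝ) = ∑ a ∈ B, ((S.filter (fun n => (n + a).Prime)).card : ℝ) := by
    unfold Uni.XX
    simp_rw [card_filter]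
    push_cast
    rw [sum_comm]
  have s2 : (1 - 2 * δ) * (R * x) ≤ ∑ n ∈ S, (Uni.XX B n : ℝ) := by
    rw [s1, ← hG]
    calc (1 - 2 * δ) * ((B.card : ℝ) * (N / (Nat.totient W * Real.log N)))
        = ∑ _a ∈ B, (1 - 2 * δ) * ((N:ℝ) / (Nat.totient W * Real.log N)) := by
          rw [sum_const, nsmul_eq_mul]; ring
      _ ≤ _ := by
          apply sum_le_sum
          intro a ha
          have h := Uni.class_lower hP hδ (hBM a ha) (hBc a ha)
          have e : S.filter (fun n => (n + a).Prime) =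
              (Ioc (k + 1) (N - M)).filter (fun n => n ≡ b [MOD W] ∧ (n + a).Prime) := by
            rw [hSdef]; unfold Sb; rw [filter_filter]
          rw [e]
          exact h
  have s3 : ∑ n ∈ S, (Uni.XX B n : ℝ) ≤ (1 + 2 * δ) * (R * x) := by
    rw [s1, ← hG]
    calc _ ≤ ∑ _a ∈ B, (1 + 2 * δ) * ((N:ℝ) / (Nat.totient W * Real.log N)) := by
          apply sum_le_sum
          intro a ha
          exact class_upper hP hP2 hδ (hBM a ha) (hBc a ha)
      _ = _ := by rw [sum_const, nsmul_eq_mul]; ring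
  -- the second moment
  have hE0 : 0 ≤ E := by
    have := hP2.hBV (fun _ => ∅) ⟨by simp, by simp⟩
    simpa using this
  have s4 := second_moment (k := k) (u := u) (M := M) (b := b) hW hP2.hBV hP2.hN
    (B := B) (fun a ha => ⟨hBM a ha, hBc a ha⟩) hu0.le
  rw [← hSdef] at s4
  have s5 := SS_sum_ge (M := M) hP2.hy hP2.hQ B hBM hP2.hnear
  rw [← hWdef] at s5
  set T := ∑ a ∈ B, ∑ a' ∈ B, SS W Q (df a a') with hT
  have hcc : (0:ℝ) ≤ (B.card : ℝ) * ((B.card : ℝ) - 1) := by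
    rcases Nat.eq_zero_or_pos B.card with h | h
    · rw [h]; simp
    · have : (1:ℝ) ≤ B.card := by exact_mod_cast h
      exact mul_nonneg (by linarith) (by linarith)
  have hB0 : (0:ℝ) ≤ B.card := Nat.cast_nonneg _
  set T0 : ℝ := (B.card : ℝ) * ((Nat.totient W : ℝ) / W * ((1 / 2 - δ) * Real.log N)) +
    (1 - 3 * δ) * (B.card * (B.card - 1)) with hT0def
  have hT0T : T0 ≤ T := by
    refine le_trans ?_ s5
    rw [hT0def]
    have h1 := hP2.hlogQ
    have h2 : (Nat.totient W : ℝ) / W * ((1 / 2 - δ) * Real.log N) ≤ (Nat.totient W : ℝ) / W * Real.log ((Q : ℝ) + 1) :=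
      mul_le_mul_of_nonneg_left h1 (by positivity)
    have h3 := mul_le_mul_of_nonneg_left h2 hB0
    linarith
  have hT00 : 0 ≤ T0 := by
    rw [hT0def]
    have h1 : 0 ≤ (1 / 2 - δ) * Real.log N := mul_nonneg (by linarith) hL.le
    have h2 : 0 ≤ (1 - 3 * δ) * ((B.card : ℝ) * (B.card - 1)) := mul_nonneg (by linarith) hcc
    positivity
  have hcoef : (1 - 2 * δ) * (u ^ 2 * R) ≤
      u * (2 * (H343E.pi1 (N - M) / Nat.totient W) - u * ((((N - M : ℕ) : ℝ) - (k + 1)) / W)) := by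
    have h1 : (1 - δ) * (u * R) ≤ H343E.pi1 (N - M) / Nat.totient W := by
      have h2 : (1 - δ) * (N / Real.log N) / Nat.totient W ≤ H343E.pi1 (N - M) / Nat.totient W :=
        div_le_div_of_nonneg_right hP.hpi hφ0.le
      refine le_trans (le_of_eq ?_) h2
      rw [hu, hR]; field_simp
    have h3 : (((N - M : ℕ) : ℝ) - (k + 1)) / W ≤ R := by
      rw [hR]
      apply div_le_div_of_nonneg_right _ hW0.le
      have h4 : ((N - M : ℕ) : ℝ) ≤ N := by exact_mod_cast Nat.sub_le N M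
      have h5 : (0:ℝ) ≤ k := Nat.cast_nonneg k
      linarith
    have h4 : u * ((((N - M : ℕ) : ℝ) - (k + 1)) / W) ≤ u * R := mul_le_mul_of_nonneg_left h3 hu0.le
    calc (1 - 2 * δ) * (u ^ 2 * R) = u * (2 * ((1 - δ) * (u * R)) - u * R) := by ring
      _ ≤ _ := mul_le_mul_of_nonneg_left (by linarith) hu0.le
  have h12 : (0:ℝ) ≤ 1 - 2 * δ := by linarith
  have hmain : (1 - 2 * δ) * (u ^ 2 * R) * T0 ≤
      u * (2 * (H343E.pi1 (N - M) / Nat.totient W) - u * ((((N - M : ℕ) : ℝ) - (k + 1)) / W)) * T := by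
    have hc0 : 0 ≤ (1 - 2 * δ) * (u ^ 2 * R) := by positivity
    calc (1 - 2 * δ) * (u ^ 2 * R) * T0 ≤ (1 - 2 * δ) * (u ^ 2 * R) * T := mul_le_mul_of_nonneg_left hT0T hc0
      _ ≤ _ := mul_le_mul_of_nonneg_right hcoef (hT00.trans hT0T)
  have hmain2 : (1 - 2 * δ) * (R * x) * ((1 / 2 - 2 * δ) + (1 - 3 * δ) * x) ≤ (1 - 2 * δ) * (u ^ 2 * R) * T0 := by
    have e1 : u ^ 2 * T0 = x * (1 / 2 - δ) + (1 - 3 * δ) * (x * (x - u)) := by
      rw [hT0def, hx]
      have e2 : u * ((Nat.totient W : ℝ) / W * Real.log N) = 1 := by rw [hu]; field_simp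
      calc _ = (u * ((Nat.totient W : ℝ) / W * Real.log N)) * ((B.card : ℝ) * u * (1 / 2 - δ)) +
            (1 - 3 * δ) * ((B.card : ℝ) * u * ((B.card : ℝ) * u - u)) := by ring
        _ = _ := by rw [e2]; ring
    have e3 : (1 - 2 * δ) * (u ^ 2 * R) * T0 = (1 - 2 * δ) * R * (u ^ 2 * T0) := by ring
    rw [e3, e1]
    have e4 : (1 - 2 * δ) * (R * x) * ((1 / 2 - 2 * δ) + (1 - 3 * δ) * x) =
        (1 - 2 * δ) * R * (x * ((1 / 2 - 2 * δ) + (1 - 3 * δ) * x)) := by ring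
    rw [e4]
    apply mul_le_mul_of_nonneg_left _ (mul_nonneg h12 hR0)
    have h5 : (1 - 3 * δ) * (x * u) ≤ x * δ := by
      have h6 : x * u ≤ x * δ := mul_le_mul_of_nonneg_left huδ hx0
      have h7 : (1 - 3 * δ) * (x * u) ≤ 1 * (x * u) :=
        mul_le_mul_of_nonneg_right (by linarith) (mul_nonneg hx0 hu0.le)
      linarith
    nlinarith
  have hLL := LL_nonneg Q
  have hk0 : (0:ℝ) ≤ k := Nat.cast_nonneg k
  have hM0 : (0:ℝ) ≤ M := Nat.cast_nonneg M
  have hQ0 : (0:ℝ) ≤ Q := Nat.cast_nonneg Q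
  have herr : (B.card : ℝ) ^ 2 * (2 * u * (LL Q * (E + Q * (M + k + 1))) + u ^ 2 * (Q * LL Q) ^ 2) ≤ δ * (R * x) := by
    have hcB : (B.card : ℝ) ≤ M + 1 := by
      have : B.card ≤ (range (M + 1)).card := card_le_card fun a ha => mem_range.2 (by have := hBM a ha; omega)
      rw [card_range] at this
      exact_mod_cast this
    have h1 : u ^ 2 * (Q * LL Q) ^ 2 ≤ u * (Q * LL Q) ^ 2 := by
      apply mul_le_mul_of_nonneg_right _ (sq_nonneg _)
      rw [sq]
      calc u * u ≤ u * 1 := mul_le_mul_of_nonneg_left (by linarith) hu0.le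
        _ = u := mul_one u
    calc (B.card : ℝ) ^ 2 * (2 * u * (LL Q * (E + Q * (M + k + 1))) + u ^ 2 * (Q * LL Q) ^ 2)
        ≤ (B.card : ℝ) ^ 2 * (2 * u * (LL Q * (E + Q * (M + k + 1))) + u * (Q * LL Q) ^ 2) := by
          apply mul_le_mul_of_nonneg_left _ (sq_nonneg _)
          linarith
      _ = x * (B.card * (2 * (LL Q * (E + Q * (M + k + 1))) + (Q * LL Q) ^ 2)) := by rw [hx]; ring
      _ ≤ x * ((M + 1) * (2 * (LL Q * (E + Q * (M + k + 1))) + (Q * LL Q) ^ 2)) := by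
          apply mul_le_mul_of_nonneg_left _ hx0
          apply mul_le_mul_of_nonneg_right hcB
          positivity
      _ ≤ x * (δ * R) := mul_le_mul_of_nonneg_left hP2.hErr hx0
      _ = _ := by ring
  have hsq : (1 + 2 * δ) * (R * x) * (k1 δ * x - k2 δ + 1) ≤ ∑ n ∈ S, (Uni.XX B n : ℝ) ^ 2 := by
    have e : (1 + 2 * δ) * (R * x) * (k1 δ * x - k2 δ + 1) =
        (1 - 2 * δ) * (R * x) * ((1 / 2 - 2 * δ) + (1 - 3 * δ) * x) - δ * (R * x) := by
      unfold k1 k2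
      have : (1 + 2 * δ) ≠ 0 := by linarith
      field_simp
      ring
    rw [e]
    linarith
  have hjen : (k1 δ * x - k2 δ + 1) * ∑ n ∈ S, (Uni.XX B n : ℝ) ≤ ∑ n ∈ S, (Uni.XX B n : ℝ) ^ 2 := by
    rcases le_or_gt 0 (k1 δ * x - k2 δ + 1) with h | h
    · calc (k1 δ * x - k2 δ + 1) * ∑ n ∈ S, (Uni.XX B n : ℝ) ≤ (k1 δ * x - k2 δ + 1) * ((1 + 2 * δ) * (R * x)) :=
            mul_le_mul_of_nonneg_left s3 h
        _ = (1 + 2 * δ) * (R * x) * (k1 δ * x - k2 δ + 1) := by ring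
        _ ≤ _ := hsq
    · have h1 : 0 ≤ ∑ n ∈ S, (Uni.XX B n : ℝ) := sum_nonneg fun _ _ => Nat.cast_nonneg _
      have h2 : 0 ≤ ∑ n ∈ S, (Uni.XX B n : ℝ) ^ 2 := sum_nonneg fun _ _ => sq_nonneg _
      nlinarith
  have hfin := jensen2 S (Uni.XX B) k hjen
  have hPP := PP_nonneg k (k1 δ * x - k2 δ)
  calc (1 - 2 * δ) * R * HH k (k1 δ) (k2 δ) x = (1 - 2 * δ) * (R * x) * PP k (k1 δ * x - k2 δ) := by
        unfold HH; ring
    _ ≤ (∑ n ∈ S, (Uni.XX B n : ℝ)) * PP k (k1 δ * x - k2 δ) := mul_le_mul_of_nonneg_right s2 hPP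
    _ ≤ ∑ n ∈ S, ((Uni.XX B n).descFactorial (k + 1) : ℝ) := hfin
    _ ≤ _ := by
        apply sum_le_sum
        intro n _
        have h1 : Uni.XX B n ≤ Uni.XX A n := by
          unfold Uni.XX
          exact card_le_card (filter_subset_filter _ hBA)
        exact_mod_cast Nat.descFactorial_le _ h1

/-- the sum over the classes -/
theorem heart2 (hP : Uni.Par k C δ q N M y) (hP2 : Par2 k δ N M y Q E) (hδ : 0 < δ) (hδ1 : δ ≤ 1 / 4)
    {lam : ℝ} (hlam : 0 < lam) (hq : 1 ≤ q) (c : ℕ) {A : Finset ℕ} (hA : ∀ a ∈ A, a ≤ M)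
    (hAc : ∀ a ∈ A, a ≡ c [MOD q]) (hcard : lam * (Nat.totient q / q) * Real.log N ≤ A.card) :
    (1 - 2 * δ) * (N / Uni.WW y) * (psi k (k1 δ) (k2 δ) (1 / (lam / (1 + δ))) *
      ((Uni.WW y / (Nat.totient (Uni.WW y) * Real.log N) : ℝ) ^ (k + 1) *
      ∑ T ∈ A.powersetCard (k + 1), (Uni.gT (Uni.WW y) T : ℝ))) ≤
      ∑ T ∈ A.powersetCard (k + 1), (Uni.cnt k (N - M) T : ℝ) := by
  classical
  set W := Uni.WW y with hWdef
  have hW : 0 < W := Uni.WW_pos y
  have hW0 : (0:ℝ) < W := by exact_mod_cast hW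
  have hL : 0 < Real.log N := by linarith [hP.hL]
  have hφ0 : (0:ℝ) < Nat.totient W := by exact_mod_cast Nat.totient_pos.2 hW
  have hq0 : (0:ℝ) < q := by exact_mod_cast hq
  have hφq : (0:ℝ) < Nat.totient q := by exact_mod_cast Nat.totient_pos.2 hq
  have hN0 : (0:ℝ) ≤ N := Nat.cast_nonneg N
  set μ := lam / (1 + δ) with hμ
  have hμ0 : 0 < μ := div_pos hlam (by linarith)
  set Y := xb N W A with hY
  have hY0 : ∀ b, 0 ≤ Y b := xb_nonneg hP.hL W A
  -- outside the good classes nothing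
  have hz : ∀ b ∈ range W, b ∉ Uni.gd W q c → Uni.Ab W A b = ∅ := by
    intro b hb hb'
    apply Uni.Ab_empty hWdef hP.hqy hq hAc
    intro h
    exact hb' (mem_filter.2 ⟨hb, h⟩)
  have hgd : Uni.gd W q c ⊆ range W := filter_subset _ _
  -- step 1 : sum over classes
  have s1 : ∑ b ∈ range W, ∑ n ∈ (Ioc (k + 1) (N - M)).filter (fun n => n ≡ b [MOD W]),
      ((Uni.XX A n).descFactorial (k + 1) : ℝ) = ∑ n ∈ Ioc (k + 1) (N - M), ((Uni.XX A n).descFactorial (k + 1) : ℝ) := by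
    rw [← sum_fiberwise_of_maps_to (s := Ioc (k + 1) (N - M)) (t := range W) (g := fun n => n % W)
      (fun n _ => mem_range.2 (Nat.mod_lt _ hW))]
    apply sum_congr rfl
    intro b hb
    apply sum_congr _ fun _ _ => rfl
    apply filter_congr
    intro n _
    rw [Nat.ModEq, Nat.mod_eq_of_lt (mem_range.1 hb)]
  have s3 : (1 - 2 * δ) * (N / W) * ∑ b ∈ Uni.gd W q c, HH k (k1 δ) (k2 δ) (Y b) ≤
      ((k + 1).factorial : ℝ) * ∑ T ∈ A.powersetCard (k + 1), (Uni.cnt k (N - M) T : ℝ) := by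
    have h1 := Uni.sum_desc A k (N - M)
    have h2 : ∑ n ∈ Ioc (k + 1) (N - M), ((Uni.XX A n).descFactorial (k + 1) : ℝ) =
      ((k + 1).factorial : ℝ) * ∑ T ∈ A.powersetCard (k + 1), (Uni.cnt k (N - M) T : ℝ) := by exact_mod_cast h1
    rw [← h2, ← s1, mul_sum]
    refine (sum_le_sum fun b _ => class_bound hP hP2 hδ hδ1 hA b).trans ?_
    exact sum_le_sum_of_subset_of_nonneg hgd fun b _ _ => sum_nonneg fun _ _ => Nat.cast_nonneg _
  -- step 2 : mean
  have s4 : μ * (Uni.gd W q c).card ≤ ∑ b ∈ Uni.gd W q c, Y b := by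
    have h1 : ∑ b ∈ Uni.gd W q c, Y b = ∑ b ∈ range W, Y b :=
      sum_subset hgd fun b hb hb' => by
        rw [hY]; unfold xb; rw [hz b hb hb']; simp
    have h2 : ∑ b ∈ range W, Y b = (A.card * Nat.totient W) * (W / (Nat.totient W * Real.log N)) := by
      have h3 := Uni.sum_card_Ab W A
      have h4 : ∑ b ∈ range W, ((Uni.Ab W A b).card : ℝ) = A.card * Nat.totient W := by exact_mod_cast h3
      rw [← h4, hY]
      unfold xb
      rw [sum_mul]
    have h5 : (A.card * Nat.totient W) * ((W : ℝ) / (Nat.totient W * Real.log N)) =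
        (A.card / Real.log N) * W := by field_simp
    have h6 : ((Uni.gd W q c).card : ℝ) ≤ (1 + δ) * (Nat.totient q / q * W) := by
      have h7 : ((Uni.gd W q c).card : ℝ) ≤ Nat.totient q * ((W / q : ℕ) + 1) := by exact_mod_cast Uni.card_gd W q c hq
      have h8 : ((W / q : ℕ) : ℝ) ≤ W / q := Nat.cast_div_le
      have h9 : (1:ℝ) ≤ δ * (W / q) := by
        rw [mul_div_assoc', le_div_iff₀ hq0, one_mul]; exact hP.hW4
      calc ((Uni.gd W q c).card : ℝ) ≤ Nat.totient q * ((W / q : ℕ) + 1) := h7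
        _ ≤ Nat.totient q * (W / q + δ * (W / q)) := by gcongr
        _ = _ := by field_simp
    rw [h1, h2, h5]
    have h10 : lam * (Nat.totient q / q) ≤ A.card / Real.log N := by
      rw [le_div_iff₀ hL]; exact hcard
    calc μ * (Uni.gd W q c).card ≤ μ * ((1 + δ) * (Nat.totient q / q * W)) := mul_le_mul_of_nonneg_left h6 hμ0.le
      _ = (lam * (Nat.totient q / q)) * W := by
          rw [hμ]
          have : 1 + δ ≠ 0 := by linarith
          field_simp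
      _ ≤ (A.card / Real.log N) * W := by gcongr
  -- step 3 : the key inequality
  have s5 := key_gen (Uni.gd W q c) Y (fun b _ => hY0 b) k (κ₁ := k1 δ) (k2_nonneg hδ hδ1) hμ0 s4
  have s6 : ((W / (Nat.totient W * Real.log N) : ℝ)) ^ (k + 1) *
      (((k + 1).factorial : ℝ) * ∑ T ∈ A.powersetCard (k + 1), (Uni.gT W T : ℝ)) ≤ ∑ b ∈ Uni.gd W q c, Y b ^ (k + 1) := by
    have h1 : ∑ b ∈ Uni.gd W q c, Y b ^ (k + 1) = ∑ b ∈ range W, Y b ^ (k + 1) :=
      sum_subset hgd fun b hb hb' => by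
        rw [hY]; unfold xb; rw [hz b hb hb']; simp
    have h2 : ∑ b ∈ range W, ((Uni.Ab W A b).card.descFactorial (k + 1) : ℝ) =
      ((k + 1).factorial : ℝ) * ∑ T ∈ A.powersetCard (k + 1), (Uni.gT W T : ℝ) := by
      exact_mod_cast Uni.sum_desc_gT A k W
    rw [h1, ← h2, mul_sum]
    apply sum_le_sum
    intro b _
    have h3 : ((Uni.Ab W A b).card.descFactorial (k + 1) : ℝ) ≤ ((Uni.Ab W A b).card : ℝ) ^ (k + 1) := by
      exact_mod_cast Nat.descFactorial_le_pow _ _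
    have h4 : 0 ≤ (W / (Nat.totient W * Real.log N) : ℝ) := by positivity
    calc (W / (Nat.totient W * Real.log N) : ℝ) ^ (k + 1) * ((Uni.Ab W A b).card.descFactorial (k + 1) : ℝ)
        ≤ (W / (Nat.totient W * Real.log N) : ℝ) ^ (k + 1) * ((Uni.Ab W A b).card : ℝ) ^ (k + 1) :=
          mul_le_mul_of_nonneg_left h3 (pow_nonneg h4 _)
      _ = Y b ^ (k + 1) := by
          rw [← mul_pow, hY]
          unfold xb
          congr 1
          ring
  have hph := psi_nonneg k (k1 δ) (k2 δ) (1 / μ)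
  have hfac : (0:ℝ) < (k + 1).factorial := by exact_mod_cast Nat.factorial_pos _
  have h12 : (0:ℝ) ≤ (1 - 2 * δ) * (N / W) := by
    have : (0:ℝ) ≤ 1 - 2 * δ := by linarith
    positivity
  have s7 : (1 - 2 * δ) * (N / W) * (psi k (k1 δ) (k2 δ) (1 / μ) * ((W / (Nat.totient W * Real.log N) : ℝ) ^ (k + 1) *
      (((k + 1).factorial : ℝ) * ∑ T ∈ A.powersetCard (k + 1), (Uni.gT W T : ℝ)))) ≤
      ((k + 1).factorial : ℝ) * ∑ T ∈ A.powersetCard (k + 1), (Uni.cnt k (N - M) T : ℝ) := by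
    refine le_trans ?_ s3
    apply mul_le_mul_of_nonneg_left _ h12
    refine le_trans ?_ s5
    exact mul_le_mul_of_nonneg_left s6 hph
  refine le_of_mul_le_mul_left ?_ hfac
  refine le_trans (le_of_eq ?_) s7
  ring

/-- the constant obtained with the parameter `δ` -/
noncomputable def FF2 (k : ℕ) (lam δ : ℝ) : ℝ :=
  (1 - 2 * δ) * psi k (k1 δ) (k2 δ) (1 / (lam / (1 + δ))) / (1 + δ) ^ ((k + 1) * (k + 1))

theorem par_bound2 (hP : Uni.Par k C δ q N M y) (hP2 : Par2 k δ N M y Q E) (hδ : 0 < δ) (hδ1 : δ ≤ 1 / 4)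
    {lam : ℝ} (hlam : 0 < lam) (hq : 1 ≤ q) (c : ℕ) {A : Finset ℕ} (hA : ∀ a ∈ A, a ≤ M)
    (hAc : ∀ a ∈ A, a ≡ c [MOD q]) (hcard : lam * (Nat.totient q / q) * Real.log N ≤ A.card) :
    FF2 k lam δ * (N / Real.log N ^ (k + 1)) * ∑ T ∈ A.powersetCard (k + 1), Uni.CT T ≤
      ∑ T ∈ A.powersetCard (k + 1), (Uni.piT T N : ℝ) := by
  classical
  have h1 := heart2 hP hP2 hδ hδ1 hlam hq c hA hAc hcard
  set W := Uni.WW y with hWdef
  have hW : 0 < W := Uni.WW_pos y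
  have hW0 : (0:ℝ) < W := by exact_mod_cast hW
  have hL : 0 < Real.log N := by linarith [hP.hL]
  have hφ0 : (0:ℝ) < Nat.totient W := by exact_mod_cast Nat.totient_pos.2 hW
  have h2 : ∑ T ∈ A.powersetCard (k + 1), (Uni.cnt k (N - M) T : ℝ) ≤
      ∑ T ∈ A.powersetCard (k + 1), (Uni.piT T N : ℝ) := by
    apply sum_le_sum
    intro T hT
    rw [mem_powersetCard] at hT
    exact_mod_cast Uni.cnt_le_piT hT.2 (fun t ht => hA t (hT.1 ht)) hP.hMN
  refine le_trans ?_ (h1.trans h2)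
  set K := (1 + δ) ^ ((k + 1) * (k + 1)) with hK
  have hK0 : 0 < K := pow_pos (by linarith) _
  have h3 : ∑ T ∈ A.powersetCard (k + 1), Uni.CT T ≤
      K * (((W : ℝ) / Nat.totient W) ^ (k + 1) * (1 / W)) * ∑ T ∈ A.powersetCard (k + 1), (Uni.gT W T : ℝ) := by
    rw [mul_sum]
    apply sum_le_sum
    intro T hT
    rw [mem_powersetCard] at hT
    have := Uni.CT_le T y (K := 1 + δ) (by linarith) (M := M) (fun t ht => hA t (hT.1 ht)) hP.htt
    rw [hT.2] at this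
    refine this.trans (le_of_eq ?_)
    rw [hK, hWdef]
    ring
  have hph := psi_nonneg k (k1 δ) (k2 δ) (1 / (lam / (1 + δ)))
  set P := psi k (k1 δ) (k2 δ) (1 / (lam / (1 + δ))) with hPdef
  have h12 : (0:ℝ) ≤ 1 - 2 * δ := by linarith
  have hN0 : (0:ℝ) ≤ N := Nat.cast_nonneg N
  have hcoef : 0 ≤ FF2 k lam δ * (N / Real.log N ^ (k + 1)) := by
    unfold FF2
    rw [← hPdef]
    positivity
  refine (mul_le_mul_of_nonneg_left h3 hcoef).trans (le_of_eq ?_)
  unfold FF2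
  rw [← hPdef, ← hK]
  have e1 : (1 - 2 * δ) * P / K * (N / Real.log N ^ (k + 1)) *
      (K * (((W : ℝ) / Nat.totient W) ^ (k + 1) * (1 / W)) * ∑ T ∈ A.powersetCard (k + 1), (Uni.gT W T : ℝ)) =
      (K / K) * ((1 - 2 * δ) * (N / W) * (P * ((((W : ℝ) / Nat.totient W) ^ (k + 1)
        / Real.log N ^ (k + 1)) * ∑ T ∈ A.powersetCard (k + 1), (Uni.gT W T : ℝ)))) := by ring
  rw [e1, div_self hK0.ne', one_mul]
  congr 3
  rw [← div_pow, div_div]

end Pool.Agent.TH891.BD
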