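import Mathlib
import Pool.Agent.TH891.BD.B6
import Pool.Agent.H387R2.U8

set_option autoImplicit false

/-! The improved universal lower bound, helper891. -/

namespace Pool.Agent.TH891.BD

open Finset Pool.Agent.H387R2 Filter Topology

/-- the prime number theorem, upper bound -/
lemma pi1_upper {η : ℝ} (hη : 0 < η) : ∀ᶠ x : ℕ in atTop, H343E.pi1 x ≤ (1 + η) * (x / Real.log x) := by
  have h := (Pool.Agent.Helper507.PNT.pi_tendsto.comp (tendsto_natCast_atTop_atTop (R := ℝ))).eventually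
    (gt_mem_nhds (show 1 < 1 + η by linarith))
  filter_upwards [h, eventually_ge_atTop 3] with x hx hx3
  simp only [Function.comp, Nat.floor_natCast] at hx
  have hx0 : (0:ℝ) < x := by positivity
  have hL : 0 < Real.log x := Real.log_pos (by exact_mod_cast (by omega : 1 < x))
  rw [div_lt_iff₀ hx0] at hx
  rw [Uni.pi1_eq, mul_div_assoc', le_div_iff₀ hL]
  linarith

lemma pi1_mono {x x' : ℕ} (h : x ≤ x') : H343E.pi1 x ≤ H343E.pi1 x' := by
  unfold H343E.pi1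
  apply Nat.cast_le.2
  apply card_le_card
  exact filter_subset_filter _ (Icc_subset_Icc le_rfl h)

set_option maxHeartbeats 4000000 in
lemma par2_eventually (k : ℕ) (C : ℝ) {δ : ℝ} (hδ : 0 < δ) (hδ1 : δ ≤ 1 / 4) (q : ℕ) :
    ∀ᶠ N : ℕ in atTop, ∃ E : ℝ, Uni.Par k C δ q N ⌊Real.log N ^ C⌋₊ ⌊Real.log (Real.log N)⌋₊ ∧
      Par2 k δ N ⌊Real.log N ^ C⌋₊ ⌊Real.log (Real.log N)⌋₊ ⌊(N : ℝ) ^ (1 / 2 - δ)⌋₊ E := by
  have tN : Tendsto (fun N : ℕ => (N : ℝ)) atTop atTop := tendsto_natCast_atTop_atTop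
  have tL : Tendsto (fun N : ℕ => Real.log (N : ℝ)) atTop atTop := Real.tendsto_log_atTop.comp tN
  have tLL : Tendsto (fun N : ℕ => Real.log (Real.log (N : ℝ))) atTop atTop := Real.tendsto_log_atTop.comp tL
  have ty : Tendsto (fun N : ℕ => ⌊Real.log (Real.log (N : ℝ))⌋₊) atTop atTop :=
    tendsto_nat_floor_atTop.comp tLL
  obtain ⟨c0, hc0⟩ : ∃ c : ℕ, c = ⌈|C|⌉₊ + 1 := ⟨_, rfl⟩
  obtain ⟨U, hU⟩ : ∃ U : ℕ, U = c0 + 5 := ⟨_, rfl⟩
  obtain ⟨Bv, x0, hBV⟩ := H343E.primes_of U (H343E.unsmoothed (U + 2))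
  have hpar := Uni.par_eventually k C hδ (by linarith : δ ≤ 1 / 2) q
  have e1 := tL.eventually (eventually_ge_atTop (max 4 (2 ^ (U + 6) / δ)))
  -- powers of the logarithm against `N^(2 δ)`
  have hpow : ∀ (m : ℕ) (η : ℝ), 0 < η → ∀ᶠ N : ℕ in atTop, Real.log N ^ m ≤ η * (N : ℝ) ^ (2 * δ) := by
    intro m η hη
    have h := (isLittleO_log_rpow_rpow_atTop (m : ℝ) (s := 2 * δ) (by positivity)).def hη
    filter_upwards [tN.eventually h, eventually_ge_atTop 1] with N hN hN1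
    have hN1' : (1:ℝ) ≤ N := by exact_mod_cast hN1
    rw [Real.norm_of_nonneg (Real.rpow_nonneg (Real.log_nonneg hN1') _),
      Real.norm_of_nonneg (Real.rpow_nonneg (by linarith) _), Real.rpow_natCast] at hN
    exact hN
  have e2 := hpow (4 + Bv) (1 / 2) (by norm_num)
  have e3 := hpow (2 * c0 + 8) (δ / (512 * (k + 3))) (by positivity)
  have e4 := ty.eventually (eventually_ge_atTop (max 2 (⌈2 / δ⌉₊ + 2)))
  have e5 := pi1_upper hδ
  have e6 : ∀ᶠ N : ℕ in atTop, 2 * (1 + 2 * Real.log (Real.log N)) ≤ δ * Real.log N := by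
    have h := (isLittleO_log_rpow_atTop (r := 1) one_pos).def (show 0 < δ / 8 by positivity)
    filter_upwards [tL.eventually h, tL.eventually (eventually_ge_atTop (max 4 (4 / δ)))] with N h1 h2
    have hL4 : 4 ≤ Real.log N := (le_max_left _ _).trans h2
    have hLd : 4 / δ ≤ Real.log N := (le_max_right _ _).trans h2
    rw [Real.rpow_one, Real.norm_of_nonneg (by linarith : 0 ≤ Real.log N),
      Real.norm_of_nonneg (Real.log_nonneg (by linarith))] at h1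
    rw [div_le_iff₀ hδ] at hLd
    linarith
  have e7 := tN.eventually (Uni.log_pow_small C (η := 1 / 4) (by norm_num))
  have e8 : ∀ᶠ N : ℕ in atTop, 4 * (x0 + k + 2) ≤ N := eventually_ge_atTop _
  filter_upwards [hpar, e1, e2, e3, e4, e5, e6, e7, e8, eventually_ge_atTop 3] with N hP h1 h2 h3 h4 h5 h6 h7 h8 h9
  set L := Real.log (N : ℝ) with hLdef
  set M := ⌊L ^ C⌋₊ with hMdef
  set y := ⌊Real.log L⌋₊ with hydef
  set Q := ⌊(N : ℝ) ^ (1 / 2 - δ)⌋₊ with hQdef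
  have hL4 : 4 ≤ L := (le_max_left _ _).trans h1
  have hLd : 2 ^ (U + 6) / δ ≤ L := (le_max_right _ _).trans h1
  have hL0 : 0 < L := by linarith
  have hN3 : (3:ℝ) ≤ N := by exact_mod_cast h9
  have hN0 : (0:ℝ) < N := by linarith
  have hMle : (M : ℝ) ≤ L ^ C := Nat.floor_le (Real.rpow_nonneg hL0.le _)
  have hM4 : (M : ℝ) ≤ 1 / 4 * N := hMle.trans h7
  have hMN : M ≤ N := hP.hMN
  have hcast : ((N - M : ℕ) : ℝ) = N - M := by push_cast [Nat.cast_sub hMN]; ring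
  have hN'0 : (N : ℝ) / 2 ≤ ((N - M : ℕ) : ℝ) := by rw [hcast]; linarith
  have hN'pos : (0:ℝ) < ((N - M : ℕ) : ℝ) := by linarith
  have hN'le : ((N - M : ℕ) : ℝ) ≤ N := by rw [hcast]; linarith [(Nat.cast_nonneg M : (0:ℝ) ≤ M)]
  have hlogN' : L / 2 ≤ Real.log ((N - M : ℕ) : ℝ) := by
    have a1 : Real.log ((N : ℝ) / 2) ≤ Real.log ((N - M : ℕ) : ℝ) := Real.log_le_log (by positivity) hN'0
    rw [Real.log_div hN0.ne' (by norm_num)] at a1
    have a2 : Real.log 2 < 1 := by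
      have := Real.log_two_lt_d9; linarith
    linarith
  have hlogN'2 : Real.log ((N - M : ℕ) : ℝ) ≤ L := Real.log_le_log hN'pos hN'le
  have hlogN'0 : 0 < Real.log ((N - M : ℕ) : ℝ) := by linarith
  have hxk : 2 * (x0 + k + 2) ≤ N - M := by
    have : (2:ℝ) * (x0 + k + 2) ≤ ((N - M : ℕ) : ℝ) := by
      have h8' : (4:ℝ) * (x0 + k + 2) ≤ N := by exact_mod_cast h8
      linarith
    exact_mod_cast this
  -- the level
  set P := (N : ℝ) ^ (1 / 2 - δ) with hPdef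
  have hP1 : 1 ≤ P := Real.one_le_rpow (by linarith) (by linarith)
  have hQP : (Q : ℝ) ≤ P := Nat.floor_le (by linarith)
  have hQ1 : 1 ≤ Q := Nat.le_floor (by exact_mod_cast hP1)
  have hQ1' : (1:ℝ) ≤ Q := by exact_mod_cast hQ1
  have hP2 : P ^ 2 * (N : ℝ) ^ (2 * δ) = N := by
    rw [hPdef, ← Real.rpow_natCast, ← Real.rpow_mul hN0.le, ← Real.rpow_add hN0]
    have : (1 / 2 - δ) * ((2 : ℕ) : ℝ) + 2 * δ = 1 := by push_cast; ring
    rw [this, Real.rpow_one]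
  have hQN : (Q : ℝ) ≤ N := by
    have a1 : P ≤ (N : ℝ) ^ (1:ℝ) := Real.rpow_le_rpow_of_exponent_le (by linarith) (by linarith)
    rw [Real.rpow_one] at a1
    linarith
  have hlogQ : Real.log Q ≤ L := Real.log_le_log (by linarith) hQN
  have hlogQ0 : 0 ≤ Real.log Q := Real.log_nonneg hQ1'
  have hLL : LL Q ≤ 8 * L ^ 2 := by
    unfold LL
    have a1 : (1 + Real.log Q) ^ 2 ≤ (2 * L) ^ 2 := pow_le_pow_left₀ (by linarith) (by linarith) 2
    linarith
  have hLL0 := LL_nonneg Q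
  have hML : (M : ℝ) ≤ L ^ c0 := by
    refine hMle.trans ?_
    rw [← Real.rpow_natCast]
    apply Real.rpow_le_rpow_of_exponent_le (by linarith)
    rw [hc0]
    push_cast
    have a1 := Nat.le_ceil |C|
    have a2 := le_abs_self C
    linarith
  have hLc1 : 1 ≤ L ^ c0 := one_le_pow₀ (by linarith)
  have hWL : (Uni.WW y : ℝ) ≤ L ^ 2 := hP.hW2
  have hW0 : (0:ℝ) < Uni.WW y := by exact_mod_cast Uni.WW_pos y
  have hW1 : (1:ℝ) ≤ Uni.WW y := by exact_mod_cast Uni.WW_pos y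
  have hy2 : 2 ≤ y := (le_max_left _ _).trans h4
  refine ⟨((N - M : ℕ) : ℝ) / Real.log ((N - M : ℕ) : ℝ) ^ U, hP, hy2, hQ1, ?_, ?_, by omega, ?_, ?_, ?_, ?_⟩
  · -- log (Q+1)
    have a1 : P ≤ (Q:ℝ) + 1 := (Nat.lt_floor_add_one P).le
    have a2 := Real.log_le_log (by linarith) a1
    rw [hPdef, Real.log_rpow hN0] at a2
    exact a2
  · -- Bombieri-Vinogradov
    intro Lf hLf
    have hD2 : ((Uni.WW y * Q : ℕ) : ℝ) ^ 2 ≤ 1 * ((N - M : ℕ) : ℝ) / Real.log ((N - M : ℕ) : ℝ) ^ Bv := by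
      rw [one_mul, le_div_iff₀ (by positivity)]
      push_cast
      calc ((Uni.WW y : ℝ) * Q) ^ 2 * Real.log ((N - M : ℕ) : ℝ) ^ Bv
          ≤ (L ^ 2 * P) ^ 2 * L ^ Bv := by gcongr
        _ = P ^ 2 * L ^ (4 + Bv) := by ring
        _ ≤ P ^ 2 * (1 / 2 * (N : ℝ) ^ (2 * δ)) := by gcongr
        _ = 1 / 2 * (P ^ 2 * (N : ℝ) ^ (2 * δ)) := by ring
        _ = N / 2 := by rw [hP2]; ring
        _ ≤ _ := hN'0
    have hD1 : ((Uni.WW y * Q : ℕ) : ℝ) ≤ ((N - M : ℕ) : ℝ) / Real.log ((N - M : ℕ) : ℝ) ^ Bv := by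
      rw [one_mul] at hD2
      refine le_trans ?_ hD2
      have : (1:ℝ) ≤ ((Uni.WW y * Q : ℕ) : ℝ) := by
        exact_mod_cast Nat.mul_pos (Uni.WW_pos y) hQ1
      nlinarith
    have := hBV (N - M) (by omega) 1 le_rfl (Uni.WW y * Q) hD1 hD2 Lf hLf
    rw [one_mul] at this
    exact this
  · exact (pi1_mono (Nat.sub_le N M)).trans h5
  · -- errors
    have hE : ((N - M : ℕ) : ℝ) / Real.log ((N - M : ℕ) : ℝ) ^ U ≤ 2 ^ U * (N / L ^ U) := by
      calc ((N - M : ℕ) : ℝ) / Real.log ((N - M : ℕ) : ℝ) ^ U ≤ N / (L / 2) ^ U := by gcongr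
        _ = 2 ^ U * (N / L ^ U) := by rw [div_pow]; field_simp
    have t1 : ((M : ℝ) + 1) * (2 * (LL Q * (((N - M : ℕ) : ℝ) / Real.log ((N - M : ℕ) : ℝ) ^ U))) ≤
        δ / 2 * (N / L ^ 2) := by
      calc ((M : ℝ) + 1) * (2 * (LL Q * (((N - M : ℕ) : ℝ) / Real.log ((N - M : ℕ) : ℝ) ^ U)))
          ≤ (L ^ c0 + L ^ c0) * (2 * (8 * L ^ 2 * (2 ^ U * (N / L ^ U)))) := by gcongr
        _ = 2 ^ (U + 5) * (L ^ c0 * L ^ 2 / L ^ U) * N := by rw [pow_add]; ring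
        _ = 2 ^ (U + 5) * (1 / L ^ 3) * N := by
            rw [hU]
            congr 2
            rw [div_eq_div_iff (by positivity) (by positivity)]
            ring
        _ = (2 ^ (U + 5) / L) * (N / L ^ 2) := by field_simp
        _ ≤ δ / 2 * (N / L ^ 2) := by
            apply mul_le_mul_of_nonneg_right _ (by positivity)
            rw [div_le_iff₀ hL0]
            rw [div_le_iff₀ hδ] at hLd
            have : (2:ℝ) ^ (U + 6) = 2 * 2 ^ (U + 5) := by rw [pow_succ]; ring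
            rw [this] at hLd
            linarith
    have hQQ : (Q:ℝ) ≤ Q ^ 2 := by nlinarith
    have hk0 : (0:ℝ) ≤ k := Nat.cast_nonneg k
    have hL1 : (1:ℝ) ≤ L := by linarith
    have hMk : (M : ℝ) + k + 1 ≤ (k + 2) * L ^ c0 := by nlinarith
    have t2 : ((M : ℝ) + 1) * (2 * (LL Q * (Q * (M + k + 1))) + (Q * LL Q) ^ 2) ≤ δ / 2 * (N / L ^ 2) := by
      have b1 : LL Q * (Q * (M + k + 1)) ≤ 8 * L ^ 2 * (P ^ 2 * ((k + 2) * L ^ c0)) := by
        have c1 : (Q:ℝ) ≤ P ^ 2 := hQQ.trans (pow_le_pow_left₀ (by linarith) hQP 2)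
        have c2 : (0:ℝ) ≤ (M:ℝ) + k + 1 := by positivity
        gcongr
      have b2 : (Q * LL Q) ^ 2 ≤ P ^ 2 * (8 * L ^ 2) ^ 2 := by
        rw [mul_pow]; gcongr
      have b3 : 2 * (LL Q * (Q * (M + k + 1))) + (Q * LL Q) ^ 2 ≤ P ^ 2 * (128 * (k + 3) * L ^ (c0 + 4)) := by
        have c1 : L ^ (c0 + 4) = L ^ c0 * L ^ 4 := pow_add _ _ _
        have c2 : L ^ 2 ≤ L ^ 4 := pow_le_pow_right₀ hL1 (by norm_num)
        have c3 : (0:ℝ) ≤ P ^ 2 := by positivity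
        have c4 : L ^ 2 * L ^ c0 ≤ L ^ c0 * L ^ 4 := by
          rw [mul_comm]; exact mul_le_mul_of_nonneg_left c2 (by positivity)
        have c5 : L ^ 4 ≤ L ^ c0 * L ^ 4 := by
          have : (0:ℝ) ≤ L ^ 4 := by positivity
          nlinarith
        have c6 : 2 * (8 * L ^ 2 * ((k + 2) * L ^ c0)) + (8 * L ^ 2) ^ 2 ≤ 128 * (k + 3) * (L ^ c0 * L ^ 4) := by
          have d1 : 2 * (8 * L ^ 2 * ((k + 2) * L ^ c0)) = 16 * (k + 2) * (L ^ 2 * L ^ c0) := by ring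
          have d2 : (8 * L ^ 2) ^ 2 = 64 * L ^ 4 := by ring
          rw [d1, d2]
          have d3 : 16 * ((k:ℝ) + 2) * (L ^ 2 * L ^ c0) ≤ 16 * (k + 2) * (L ^ c0 * L ^ 4) :=
            mul_le_mul_of_nonneg_left c4 (by positivity)
          have d4 : (0:ℝ) ≤ L ^ c0 * L ^ 4 := by positivity
          nlinarith
        calc _ ≤ 2 * (8 * L ^ 2 * (P ^ 2 * ((k + 2) * L ^ c0))) + P ^ 2 * (8 * L ^ 2) ^ 2 := by linarith
          _ = P ^ 2 * (2 * (8 * L ^ 2 * ((k + 2) * L ^ c0)) + (8 * L ^ 2) ^ 2) := by ring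
          _ ≤ P ^ 2 * (128 * (k + 3) * (L ^ c0 * L ^ 4)) := mul_le_mul_of_nonneg_left c6 c3
          _ = _ := by rw [c1]
      have b4 : ((M : ℝ) + 1) ≤ 2 * L ^ c0 := by linarith
      have b5 : L ^ (2 * c0 + 8) ≤ δ / (512 * (k + 3)) * (N : ℝ) ^ (2 * δ) := h3
      have hk3 : (0:ℝ) < k + 3 := by positivity
      rw [mul_div_assoc', le_div_iff₀ (by positivity)]
      calc ((M : ℝ) + 1) * (2 * (LL Q * (Q * (M + k + 1))) + (Q * LL Q) ^ 2) * L ^ 2
          ≤ (2 * L ^ c0) * (P ^ 2 * (128 * (k + 3) * L ^ (c0 + 4))) * L ^ 2 := by gcongr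
        _ = 256 * (k + 3) * P ^ 2 * L ^ (2 * c0 + 6) := by ring
        _ ≤ 256 * (k + 3) * P ^ 2 * L ^ (2 * c0 + 8) := by
            apply mul_le_mul_of_nonneg_left _ (by positivity)
            exact pow_le_pow_right₀ hL1 (by omega)
        _ ≤ 256 * (k + 3) * P ^ 2 * (δ / (512 * (k + 3)) * (N : ℝ) ^ (2 * δ)) := by gcongr
        _ = δ / 2 * (P ^ 2 * (N : ℝ) ^ (2 * δ)) := by field_simp; norm_num
        _ = δ / 2 * N := by rw [hP2]
    have t3 : δ * (N / L ^ 2) ≤ δ * (N / Uni.WW y) := by gcongr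
    refine le_trans ?_ t3
    have e : ((M : ℝ) + 1) * (2 * (LL Q * (((N - M : ℕ) : ℝ) / Real.log ((N - M : ℕ) : ℝ) ^ U + Q * (M + k + 1))) + (Q * LL Q) ^ 2) =
        ((M : ℝ) + 1) * (2 * (LL Q * (((N - M : ℕ) : ℝ) / Real.log ((N - M : ℕ) : ℝ) ^ U))) +
        ((M : ℝ) + 1) * (2 * (LL Q * (Q * (M + k + 1))) + (Q * LL Q) ^ 2) := by ring
    rw [e]
    linarith
  · -- u
    have hφ0 : (0:ℝ) < Nat.totient (Uni.WW y) := by exact_mod_cast Nat.totient_pos.2 (Uni.WW_pos y)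
    rw [div_le_iff₀ (by positivity)]
    have a1 := Pool.Agent.H442R2.EHI.Mdl.tot_lower (Uni.WW y) (Uni.WW_pos y)
    have a2 : Real.log (Uni.WW y) ≤ 2 * Real.log L := by
      have := Real.log_le_log hW0 hWL
      rw [Real.log_pow] at this
      exact_mod_cast this
    calc (Uni.WW y : ℝ) ≤ 2 * (1 + Real.log (Uni.WW y)) * Nat.totient (Uni.WW y) := a1
      _ ≤ 2 * (1 + 2 * Real.log L) * Nat.totient (Uni.WW y) := by gcongr
      _ ≤ δ * L * Nat.totient (Uni.WW y) := by gcongr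
      _ = δ * (Nat.totient (Uni.WW y) * L) := by ring
  · -- near
    intro h hh hhM
    have a1 := hP.htt h hh hhM
    have hy' : ⌈2 / δ⌉₊ + 2 ≤ y := (le_max_right _ _).trans h4
    have a2 : 2 / δ + 1 ≤ (y:ℝ) - 1 := by
      have b1 : ((⌈2 / δ⌉₊ + 2 : ℕ) : ℝ) ≤ y := by exact_mod_cast hy'
      push_cast at b1
      have b2 := Nat.le_ceil (2 / δ)
      linarith
    have a3 : 0 < 2 / δ := by positivity
    have a4 : 1 / ((y:ℝ) - 1) ≤ δ / 2 := by
      rw [div_le_div_iff₀ (by linarith) (by norm_num)]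
      have : 2 / δ * δ = 2 := by field_simp
      nlinarith
    have a5 : Real.exp (1 / ((y:ℝ) - 1)) ≤ 1 + δ := by
      refine (Real.exp_le_exp.2 a4).trans ?_
      have c4 := Real.abs_exp_sub_one_le (x := δ / 2) (by rw [abs_of_pos (by positivity)]; linarith)
      rw [abs_of_pos (show 0 < δ / 2 by positivity)] at c4
      have := (abs_le.1 c4).2
      linarith
    have a6 : Pool.Agent.H386R2.HL.tt y h * Real.exp (1 / ((y:ℝ) - 1)) ≤ (1 + δ) * (1 + δ) := by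
      apply mul_le_mul a1 a5 (Real.exp_pos _).le (by linarith)
    nlinarith

/-- the constant tends to `∏ (1 - (i + 1/2)/lam)` -/
lemma FF2_tendsto (k : ℕ) {lam : ℝ} (hlam : 0 < lam) :
    Tendsto (FF2 k lam) (𝓝 0) (𝓝 (psi k 1 (1 / 2) (1 / lam))) := by
  have hc1 : ContinuousAt k1 0 := by
    unfold k1
    apply ContinuousAt.div
    · fun_prop
    · fun_prop
    · norm_num
  have hc2 : ContinuousAt k2 0 := by
    unfold k2
    apply ContinuousAt.sub continuousAt_const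
    apply ContinuousAt.div
    · fun_prop
    · fun_prop
    · norm_num
  have h10 : k1 0 = 1 := by unfold k1; norm_num
  have h20 : k2 0 = 1 / 2 := by unfold k2; norm_num
  have h1 : ContinuousAt (fun δ : ℝ => 1 / (lam / (1 + δ))) 0 := by
    apply ContinuousAt.div continuousAt_const
    · apply ContinuousAt.div continuousAt_const
      · fun_prop
      · norm_num
    · simp [hlam.ne']
  have hpsi : ContinuousAt (fun δ : ℝ => psi k (k1 δ) (k2 δ) (1 / (lam / (1 + δ)))) 0 := by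
    unfold psi
    apply tendsto_finsetProd
    intro i _
    apply Filter.Tendsto.max tendsto_const_nhds
    exact (hc1.sub ((hc2.add continuousAt_const).mul h1))
  have h : ContinuousAt (FF2 k lam) 0 := by
    unfold FF2
    apply ContinuousAt.div
    · apply ContinuousAt.mul
      · fun_prop
      · exact hpsi
    · fun_prop
    · norm_num
  have h3 : FF2 k lam 0 = psi k 1 (1 / 2) (1 / lam) := by
    unfold FF2
    rw [h10, h20]
    simp
  rw [← h3]
  exact h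

lemma psi_lim (k : ℕ) {lam : ℝ} (hk : 1 ≤ k) (hlam : (k : ℝ) - 1 / 2 < lam) :
    psi k 1 (1 / 2) (1 / lam) = ∏ i ∈ range k, (1 - (i + 1 / 2 : ℝ) / lam) := by
  have hk1 : (1:ℝ) ≤ k := by exact_mod_cast hk
  have hlam0 : 0 < lam := by linarith
  unfold psi
  apply prod_congr rfl
  intro i hi
  rw [mem_range] at hi
  have h1 : ((i:ℝ) + 1) ≤ k := by exact_mod_cast hi
  rw [mul_one_div, max_eq_right]
  · ring
  · rw [sub_nonneg, div_le_one hlam0]
    linarith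

/-- **Universal lower bound, half an element better** -/
theorem universal2 (k q : ℕ) (hk : 1 ≤ k) (hq : 1 ≤ q) (lam θ C : ℝ) (hlam : (k : ℝ) - 1 / 2 < lam)
    (hθ0 : 0 < θ) (hθ : θ < ∏ i ∈ range k, (1 - (i + 1 / 2 : ℝ) / lam)) :
    ∃ N₀ : ℕ, ∀ N : ℕ, N₀ ≤ N → ∀ (c : ℕ) (A : Finset ℕ), (∀ a ∈ A, a ≡ c [MOD q]) →
      (∀ a ∈ A, (a : ℝ) ≤ Real.log N ^ C) → lam * ((Nat.totient q : ℝ) / q) * Real.log N ≤ A.card →
      θ * (∑ T ∈ A.powersetCard (k + 1), Uni.CT T) * (∫ t in (2:ℝ)..N, 1 / Real.log t ^ (k + 1)) ≤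
        ∑ T ∈ A.powersetCard (k + 1), (Uni.piT T N : ℝ) := by
  have hk1 : (1:ℝ) ≤ k := by exact_mod_cast hk
  have hlam0 : 0 < lam := by linarith
  rw [← psi_lim k hk hlam] at hθ
  obtain ⟨θ', h1, h2⟩ := exists_between hθ
  have h3 := (FF2_tendsto k hlam0).eventually (lt_mem_nhds h2)
  obtain ⟨r, hr, h4⟩ := Metric.eventually_nhds_iff.1 h3
  set δ := min (r / 2) (1 / 4) with hδdef
  have hδ : 0 < δ := lt_min (by positivity) (by norm_num)
  have hδ1 : δ ≤ 1 / 4 := min_le_right _ _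
  have hδr : δ < r := lt_of_le_of_lt (min_le_left _ _) (by linarith)
  have h5 : θ' < FF2 k lam δ := h4 (by
    rw [Real.dist_eq, sub_zero, abs_of_pos hδ]; exact hδr)
  have hη : 0 < (θ' - θ) / θ := div_pos (by linarith) hθ0
  obtain ⟨N₀, hN₀⟩ := eventually_atTop.1 ((par2_eventually k C hδ hδ1 q).and (Uni.li_upper (k + 1) hη))
  refine ⟨N₀, fun N hN c A hAc hA hcard => ?_⟩
  obtain ⟨⟨E, hP, hP2⟩, hli⟩ := hN₀ N hN
  have hL : 0 < Real.log N := by linarith [hP.hL]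
  have h6 := par_bound2 hP hP2 hδ hδ1 hlam0 hq c (A := A) (fun a ha => Nat.le_floor (hA a ha)) hAc hcard
  refine le_trans ?_ h6
  have hS : 0 ≤ ∑ T ∈ A.powersetCard (k + 1), Uni.CT T := sum_nonneg fun T _ => Uni.CT_nonneg T
  have hX : (0:ℝ) ≤ N / Real.log N ^ (k + 1) := by positivity
  calc θ * (∑ T ∈ A.powersetCard (k + 1), Uni.CT T) * (∫ t in (2:ℝ)..N, 1 / Real.log t ^ (k + 1))
      ≤ θ * (∑ T ∈ A.powersetCard (k + 1), Uni.CT T) * ((1 + (θ' - θ) / θ) * (N / Real.log N ^ (k + 1))) :=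
        mul_le_mul_of_nonneg_left hli (mul_nonneg hθ0.le hS)
    _ = θ' * (N / Real.log N ^ (k + 1)) * ∑ T ∈ A.powersetCard (k + 1), Uni.CT T := by
        field_simp
        ring
    _ ≤ FF2 k lam δ * (N / Real.log N ^ (k + 1)) * ∑ T ∈ A.powersetCard (k + 1), Uni.CT T := by
        gcongr

end Pool.Agent.TH891.BD
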